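import Pool.Agent.H628R3.RO.Defs

/-!
# The class `BPP_path` relative to an oracle, and its complete sets
-/

namespace Pool.Agent.J4H45.BP

open Pool.Agent.NPC Pool.Agent.H628R3.RO

/-- A nondeterministic polynomial-time oracle machine. A computation path is described by the list
`a` of the answers of the oracle and of the nondeterministic choices made so far. What the machine
does next on input `x` is told by `D ⟨x, a⟩`: `false :: q` means that it asks whether `q` is in the
oracle; `[true]` means that it makes a nondeterministic choice between two continuations;
`true :: true :: z` means that the path ends and accepts; `true :: false :: z` and the empty string
mean that the path ends and rejects. The function `D` is polynomial-time computable. The number of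
questions and choices on a path is bounded by the polynomial `p` in the length of the input; a path
which is stopped by this bound rejects. -/
structure NMach : Type where
  /-- the next action, as a function of the input and of the answers and choices so far -/
  D : List Bool → List Bool
  /-- it is computable in polynomial time -/
  poly : PolyTime D
  /-- the bound for the length of the paths -/
  p : Polynomial ℕ

/-- The number of computation paths of the machine on input `x` with oracle `A` which extend `a`
by at most `n` further questions and choices and accept (for `v = true`) or reject
(for `v = false`). -/
def NMach.paths (M : NMach) (A : Oracle) (x : List Bool) (v : Bool) : ℕ → List Bool → ℕ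
  | 0, _ => if v = false then 1 else 0
  | n + 1, a =>
    match M.D (pairBits x a) with
    | [] => if v = false then 1 else 0
    | false :: q => M.paths A x v n (a ++ [A q])
    | [true] => M.paths A x v n (a ++ [false]) + M.paths A x v n (a ++ [true])
    | true :: b :: _ => if b = v then 1 else 0

/-- The number of accepting computation paths on input `x` with oracle `A`. -/
def NMach.acc (M : NMach) (A : Oracle) (x : List Bool) : ℕ :=
  M.paths A x true (M.p.eval x.length) []

/-- The number of rejecting computation paths on input `x` with oracle `A`. -/
def NMach.rej (M : NMach) (A : Oracle) (x : List Bool) : ℕ :=
  M.paths A x false (M.p.eval x.length) []

/-- The number of all computation paths on input `x` with oracle `A`. -/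
def NMach.total (M : NMach) (A : Oracle) (x : List Bool) : ℕ := M.acc A x + M.rej A x

/-- The class `BPP_path` relative to the oracle `A`: more than three quarters of the computation
paths accept the members of the language, and more than three quarters of the computation paths
reject the other strings. -/
def BPPpath (A : Oracle) (L : Set (List Bool)) : Prop :=
  ∃ M : NMach, ∀ x, (x ∈ L → 3 * M.total A x < 4 * M.acc A x) ∧
    (x ∉ L → 3 * M.total A x < 4 * M.rej A x)

/-- `C` is complete for `BPP_path` relative to `A` under polynomial-time many-one reductions; the
reductions do not have access to the oracle. -/
def IsComplete (A : Oracle) (C : Set (List Bool)) : Prop :=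
  BPPpath A C ∧ ∀ L, BPPpath A L → Reduces L C

/-- `C` is complete for `BPP_path` relative to `A` under polynomial-time many-one reductions which
have access to the oracle. -/
def IsCompleteRel (A : Oracle) (C : Set (List Bool)) : Prop :=
  BPPpath A C ∧ ∀ L, BPPpath A L → Red A L C

end Pool.Agent.J4H45.BP
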