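import Pool.Agent.J4H45.BP.Defs
import Pool.Agent.H628R3.RO.A3

/-!
# The test languages
-/

namespace Pool.Agent.J4H45.BP

open Finset Pool.Agent.NPC Pool.Agent.H628R3.RO Pool.Agent.H622R2

/-- the string of the index `i` and the word `w` -/
def str (i : ℕ) (w : List Bool) : List Bool := List.replicate i true ++ false :: w

theorem str_inj {i i' : ℕ} {w w' : List Bool} (h : str i w = str i' w') : i = i' ∧ w = w' := by
  unfold str at h
  induction i generalizing i' with
  | zero =>
    cases i' with
    | zero => simpa using h
    | succ i' => simp [List.replicate_succ] at h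
  | succ i ih =>
    cases i' with
    | zero => simp [List.replicate_succ] at h
    | succ i' =>
      simp only [List.replicate_succ, List.cons_append, List.cons.injEq, true_and] at h
      have := ih h
      exact ⟨by omega, this.2⟩

theorem length_str (i : ℕ) (w : List Bool) : (str i w).length = i + 1 + w.length := by
  simp only [str, List.length_append, List.length_replicate, List.length_cons]
  omega

/-- the strings `str i (a ++ w)` with `w` of length `k` -/
def regs (i : ℕ) : ℕ → List Bool → Finset (List Bool)
  | 0, a => {str i a}
  | k + 1, a => regs i k (a ++ [false]) ∪ regs i k (a ++ [true])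

theorem mem_regs {i : ℕ} : ∀ {k : ℕ} {a u : List Bool}, u ∈ regs i k a ↔
    ∃ w : List Bool, w.length = k ∧ u = str i (a ++ w) := by
  intro k
  induction k with
  | zero =>
    intro a u
    simp only [regs, mem_singleton, List.length_eq_zero_iff]
    constructor
    · rintro rfl; exact ⟨[], rfl, by simp⟩
    · rintro ⟨w, rfl, rfl⟩; simp
  | succ k ih =>
    intro a u
    simp only [regs, mem_union, ih]
    constructor
    · rintro (⟨w, h1, h2⟩ | ⟨w, h1, h2⟩)
      · exact ⟨false :: w, by simp [h1], by simp [h2]⟩
      · exact ⟨true :: w, by simp [h1], by simp [h2]⟩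
    · rintro ⟨w, h1, h2⟩
      rcases w with _ | ⟨b, w⟩
      · simp at h1
      · simp only [List.length_cons, Nat.add_right_cancel_iff] at h1
        cases b
        · exact Or.inl ⟨w, h1, by simp [h2]⟩
        · exact Or.inr ⟨w, h1, by simp [h2]⟩

theorem disj_regs (i k : ℕ) (a : List Bool) :
    Disjoint (regs i k (a ++ [false])) (regs i k (a ++ [true])) := by
  rw [disjoint_left]
  intro u h1 h2
  rw [mem_regs] at h1 h2
  obtain ⟨w, -, rfl⟩ := h1
  obtain ⟨w', -, h⟩ := h2
  have h3 := (str_inj h).2
  rw [List.append_assoc, List.append_assoc] at h3
  have h4 := List.append_cancel_left h3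
  simp at h4

/-- the region of the index `i` and the length `n` -/
def reg (i n : ℕ) : Finset (List Bool) := regs i n []

theorem mem_reg {i n : ℕ} {u : List Bool} : u ∈ reg i n ↔
    ∃ w : List Bool, w.length = n ∧ u = str i w := by
  unfold reg
  rw [mem_regs]
  simp

theorem card_regs (i : ℕ) : ∀ (k : ℕ) (a : List Bool), (regs i k a).card = 2 ^ k := by
  intro k
  induction k with
  | zero => intro a; simp [regs]
  | succ k ih =>
    intro a
    rw [regs, card_union_of_disjoint (disj_regs i k a), ih, ih, pow_succ]
    omega

theorem card_reg (i n : ℕ) : (reg i n).card = 2 ^ n := card_regs i n []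

/-- the number of the strings of the region with the answer `v` -/
def ct (A : Oracle) (i n : ℕ) (v : Bool) : ℕ := ((reg i n).filter (fun u => A u = v)).card

/-- the test language -/
def Lg (A : Oracle) (i : ℕ) : Set (List Bool) := {x | 3 * 2 ^ x.length < 4 * ct A i x.length true}

theorem ct_add (A : Oracle) (i n : ℕ) : ct A i n true + ct A i n false = 2 ^ n := by
  have h := card_filter_add_card_filter_not (s := reg i n) (fun u => A u = true)
  rw [card_reg] at h
  have e : (reg i n).filter (fun u => A u = false) =
      (reg i n).filter (fun u => ¬ A u = true) := by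
    ext u; simp
  unfold ct
  rw [e]
  exact h

/-- the machine for the test language -/
def lD (i : ℕ) (z : List Bool) : List Bool :=
  if (unpair z).2.length < (unpair z).1.length then [true]
  else if (unpair z).2.length = (unpair z).1.length then false :: str i (unpair z).2
  else
    match (unpair z).2[(unpair z).1.length]? with
    | none => []
    | some b => [true, b]

theorem poly_lD (i : ℕ) : Poly (lD i) := by
  have hx : Poly (fun y => (unpair y).1) := Poly.fst poly_unpair
  have hw : Poly (fun y => (unpair y).2) := Poly.snd poly_unpair
  have h1 : Poly (fun y => match (unpair y).2[(unpair y).1.length]? with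
      | none => ([] : List Bool)
      | some b => [true, b]) := by
    refine (Poly.optCases (o := fun y => (unpair y).2[(unpair y).1.length]?)
      (g := fun _ => ([] : List Bool)) (h := fun _ b => [true, b])
      (Poly.getElem? hw (Poly.length hx)) (NPC.Poly.const [])
      (Poly.cons (NPC.Poly.const true) (Poly.cons (Poly.snd Poly.id) (NPC.Poly.const [])))).congr
      fun y => ?_
    cases (unpair y).2[(unpair y).1.length]? <;> rfl
  unfold lD
  refine Poly.ite (Poly.decide_lt (Poly.length hw) (Poly.length hx)) (NPC.Poly.const [true]) ?_
  refine Poly.ite (Poly.decide_eq (Poly.length hw) (Poly.length hx)) ?_ h1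
  exact Poly.cons (NPC.Poly.const false) (Poly.append (NPC.Poly.const (List.replicate i true))
    (Poly.cons (NPC.Poly.const false) hw))

/-- the machine for the test language -/
noncomputable def lM (i : ℕ) : NMach where
  D := lD i
  poly := polyTime_of_poly_list (poly_lD i)
  p := Polynomial.X + Polynomial.C 2

theorem lM_paths (A : Oracle) (i : ℕ) (x : List Bool) (v : Bool) : ∀ (k : ℕ) (a : List Bool),
    a.length + k = x.length → (lM i).paths A x v (k + 2) a =
      ((regs i k a).filter (fun u => A u = v)).card := by
  intro k
  induction k with
  | zero =>
    intro a ha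
    have h1 : (lM i).D (pairBits x a) = false :: str i a := by
      change lD i (pairBits x a) = _
      unfold lD
      rw [unpair_pairBits]
      simp only
      rw [if_neg (by omega), if_pos (by omega)]
    have h2 : (lM i).D (pairBits x (a ++ [A (str i a)])) = [true, A (str i a)] := by
      change lD i (pairBits x _) = _
      unfold lD
      rw [unpair_pairBits]
      simp only [List.length_append, List.length_singleton]
      rw [if_neg (by omega), if_neg (by omega)]
      have : (a ++ [A (str i a)])[x.length]? = some (A (str i a)) := by
        rw [show x.length = a.length by omega]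
        simp
      rw [this]
    rw [NMach.paths, h1]
    simp only
    rw [NMach.paths, h2]
    simp only [regs]
    rw [filter_singleton]
    split_ifs <;> simp
  | succ k ih =>
    intro a ha
    have h1 : (lM i).D (pairBits x a) = [true] := by
      change lD i (pairBits x a) = _
      unfold lD
      rw [unpair_pairBits]
      simp only
      rw [if_pos (by omega)]
    rw [show k + 1 + 2 = (k + 2) + 1 by ring, NMach.paths, h1]
    simp only
    rw [ih _ (by simp; omega), ih _ (by simp; omega), regs, filter_union,
      card_union_of_disjoint]
    exact disjoint_filter_filter (disj_regs i k a)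

theorem lM_acc (A : Oracle) (i : ℕ) (x : List Bool) (v : Bool) :
    (lM i).paths A x v ((lM i).p.eval x.length) [] = ct A i x.length v := by
  have h : (lM i).p.eval x.length = x.length + 2 := by simp [lM]
  rw [h, lM_paths A i x v x.length [] (by simp)]
  rfl

/-- the promise on the density -/
def Dens (A : Oracle) (i n : ℕ) : Prop :=
  4 * ct A i n true < 2 ^ n ∨ 3 * 2 ^ n < 4 * ct A i n true

/-- under the promise on the densities the test language is in the class -/
theorem bpp_Lg {A : Oracle} {i : ℕ} (h : ∀ n, Dens A i n) : BPPpath A (Lg A i) := by
  refine ⟨lM i, fun x => ?_⟩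
  have h1 : (lM i).acc A x = ct A i x.length true := lM_acc A i x true
  have h2 : (lM i).rej A x = ct A i x.length false := lM_acc A i x false
  have h3 := ct_add A i x.length
  unfold NMach.total
  rw [h1, h2, h3]
  refine ⟨fun hx => hx, fun hx => ?_⟩
  rcases h x.length with h4 | h4
  · omega
  · exact absurd h4 hx

end Pool.Agent.J4H45.BP
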