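import Mathlib

/-!
# Numerical estimates
-/

namespace Pool.Agent.J4H45.BP

theorem pow_ge_two_pow {c : ℕ} (hc : 1 ≤ c) (r : ℕ) :
    (2 : ℝ) ^ r ≤ (1 + 1 / (c : ℝ)) ^ (c * r) := by
  rw [pow_mul]
  refine pow_le_pow_left₀ (by norm_num) ?_ r
  have hc' : (0 : ℝ) < c := by exact_mod_cast hc
  have h := one_add_mul_le_pow (a := 1 / (c : ℝ)) (by have : 0 ≤ 1 / (c : ℝ) := by positivity
                                                      linarith) c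
  have e : (1 : ℝ) + c * (1 / c) = 2 := by field_simp; norm_num
  rw [e] at h
  exact h

theorem num_L (d : ℕ) : 2 * (2 : ℝ) ^ (d + 1) <
    (1 + 1 / (8000 * ((d + 1 : ℕ) : ℝ))) ^ (8000 * (d + 1) * (d + 3)) := by
  have h := pow_ge_two_pow (c := 8000 * (d + 1)) (by omega) (d + 3)
  push_cast at h ⊢
  refine lt_of_lt_of_le ?_ h
  have : (2 : ℝ) ^ (d + 3) = 2 * (2 * 2 ^ (d + 1)) := by ring
  rw [this]
  have : (0 : ℝ) < 2 ^ (d + 1) := by positivity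
  linarith

theorem num_J (d : ℕ) : 12 * (2 : ℝ) ^ (d + 1) ≤
    (1 + 1 / (2 * ((d + 1 : ℕ) : ℝ))) ^ (2 * (d + 1) * (d + 5)) := by
  have h := pow_ge_two_pow (c := 2 * (d + 1)) (by omega) (d + 5)
  push_cast at h ⊢
  refine le_trans ?_ h
  have : (2 : ℝ) ^ (d + 5) = 16 * 2 ^ (d + 1) := by ring
  rw [this]
  have : (0 : ℝ) < 2 ^ (d + 1) := by positivity
  linarith

theorem num_k {d l : ℕ} (hl : 12 ≤ l) (hd : d + 1 ≤ 2 ^ l) :
    2 * (2 * (d + 1) * (d + 5)) ≤ 2 ^ (2 * l + 4) := by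
  have h1 : 4 ≤ 2 ^ l := by
    calc 4 ≤ 2 ^ 12 := by norm_num
      _ ≤ 2 ^ l := Nat.pow_le_pow_right (by norm_num) hl
  have h2 : (d + 1) * (d + 5) ≤ 2 ^ l * (2 * 2 ^ l) := Nat.mul_le_mul hd (by omega)
  have e : 2 ^ (2 * l + 4) = 16 * (2 ^ l * 2 ^ l) := by ring
  rw [e]
  nlinarith

theorem aux_cubic (m : ℕ) :
    1080 + 133 * m + 4 * m ^ 2 ≤ 1728 + 432 * m + 36 * m ^ 2 + m ^ 3 := by
  have h1 := Nat.zero_le (m ^ 3)
  have h2 := Nat.zero_le (m ^ 2)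
  omega

theorem num_N {d s l : ℕ} (hl : 12 ≤ l) (hd : d + 1 ≤ 2 ^ l) (hs : s ≤ 2 ^ l) :
    s + (d + 1) * (8000 * (d + 1) * (d + 3) + 1) ^ (2 * l + 4) < 2 ^ (l ^ 3) / 4 := by
  have h1 : 4 ≤ 2 ^ l := by
    calc 4 ≤ 2 ^ 12 := by norm_num
      _ ≤ 2 ^ l := Nat.pow_le_pow_right (by norm_num) hl
  have h2 : 8000 * (d + 1) * (d + 3) + 1 ≤ 2 ^ (2 * l + 14) := by
    have h3 : (d + 1) * (d + 3) ≤ 2 ^ l * (2 * 2 ^ l) := Nat.mul_le_mul hd (by omega)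
    have e : 2 ^ (2 * l + 14) = 16384 * (2 ^ l * 2 ^ l) := by ring
    rw [e]
    have h4 : 1 ≤ 2 ^ l * 2 ^ l := Nat.mul_pos (by positivity) (by positivity)
    nlinarith
  have h3 : (d + 1) * (8000 * (d + 1) * (d + 3) + 1) ^ (2 * l + 4) ≤
      2 ^ l * (2 ^ (2 * l + 14)) ^ (2 * l + 4) :=
    Nat.mul_le_mul hd (Nat.pow_le_pow_left h2 _)
  have h4 : 2 ^ l * (2 ^ (2 * l + 14)) ^ (2 * l + 4) =
      2 ^ (l + (2 * l + 14) * (2 * l + 4)) := by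
    rw [← pow_mul, ← pow_add]
  have h5 : 2 ^ l ≤ 2 ^ (l + (2 * l + 14) * (2 * l + 4)) :=
    Nat.pow_le_pow_right (by norm_num) (by omega)
  have h6 : s + (d + 1) * (8000 * (d + 1) * (d + 3) + 1) ^ (2 * l + 4) ≤
      2 ^ (l + (2 * l + 14) * (2 * l + 4) + 1) := by
    have e : 2 ^ (l + (2 * l + 14) * (2 * l + 4) + 1) =
      2 ^ (l + (2 * l + 14) * (2 * l + 4)) * 2 := pow_succ _ _
    rw [e]
    rw [h4] at h3
    omega
  have h7 : l + (2 * l + 14) * (2 * l + 4) + 1 + 1 ≤ l ^ 3 - 2 := by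
    have h8 : l + (2 * l + 14) * (2 * l + 4) + 1 + 1 + 2 ≤ l ^ 3 := by
      obtain ⟨m, rfl⟩ := Nat.exists_eq_add_of_le hl
      have e1 : (12 + m) ^ 3 = 1728 + 432 * m + 36 * m ^ 2 + m ^ 3 := by ring
      have e2 : 12 + m + (2 * (12 + m) + 14) * (2 * (12 + m) + 4) + 1 + 1 + 2 =
        1080 + 133 * m + 4 * m ^ 2 := by ring
      rw [e1, e2]
      exact aux_cubic m
    exact Nat.le_sub_of_add_le h8
  have h8 : 2 ^ (l ^ 3) / 4 = 2 ^ (l ^ 3 - 2) := by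
    have h10 : 2 ≤ l ^ 3 := by
      calc 2 ≤ 12 ^ 3 := by norm_num
        _ ≤ l ^ 3 := Nat.pow_le_pow_left hl 3
    obtain ⟨t, ht⟩ := Nat.exists_eq_add_of_le' h10
    rw [ht, pow_add, Nat.add_sub_cancel]
    exact Nat.mul_div_cancel _ (by norm_num)
  rw [h8]
  calc _ ≤ 2 ^ (l + (2 * l + 14) * (2 * l + 4) + 1) := h6
    _ < 2 ^ (l + (2 * l + 14) * (2 * l + 4) + 1 + 1) :=
        Nat.pow_lt_pow_right (by norm_num) (Nat.lt_succ_self _)
    _ ≤ _ := Nat.pow_le_pow_right (by norm_num) h7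

theorem poly_le (P : Polynomial ℕ) (m : ℕ) (hm : 1 ≤ m) :
    P.eval m ≤ P.eval 1 * m ^ P.natDegree := by
  rw [Polynomial.eval_eq_sum_range, Polynomial.eval_eq_sum_range, Finset.sum_mul]
  refine Finset.sum_le_sum fun i hi => ?_
  rw [one_pow, mul_one]
  exact Nat.mul_le_mul_left _ (Nat.pow_le_pow_right hm (by
    rw [Finset.mem_range] at hi; omega))

theorem poly_le_two_pow (p : Polynomial ℕ) : ∃ N : ℕ, ∀ n ≥ N, p.eval n ≤ 2 ^ n := by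
  have h1 := tendsto_pow_const_div_const_pow_of_one_lt p.natDegree (r := (2 : ℝ)) (by norm_num)
  have hpos : (0 : ℝ) < 1 / (p.eval 1 + 1) := by positivity
  have h : ∀ᶠ n : ℕ in Filter.atTop, p.eval n ≤ 2 ^ n := by
    filter_upwards [h1.eventually (eventually_lt_nhds hpos), Filter.eventually_ge_atTop 1]
      with n hn h1n
    rw [div_lt_div_iff₀ (by positivity) (by positivity), one_mul] at hn
    have h2 : ((p.eval 1 * n ^ p.natDegree : ℕ) : ℝ) ≤ ((2 ^ n : ℕ) : ℝ) := by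
      push_cast
      have h3 : (0 : ℝ) ≤ (n : ℝ) ^ p.natDegree := by positivity
      nlinarith
    exact (poly_le p n h1n).trans (by exact_mod_cast h2)
  exact Filter.eventually_atTop.1 h

end Pool.Agent.J4H45.BP
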