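import Pool.Agent.J4H45.BP.Mach
import Pool.Agent.J4H45.BP.Num
import Pool.Agent.J4H45.BP.Lang

/-!
# The construction of the oracle
-/

namespace Pool.Agent.J4H45.BP

open Finset Pool.Agent.NPC Pool.Agent.H628R3.RO

/-- the promise of a machine at an input -/
def Prom (M : NMach) (A : Oracle) (y : List Bool) : Prop :=
  ∃ v, 3 * M.paths A y (!v) (M.p.eval y.length) [] < M.paths A y v (M.p.eval y.length) []

/-- agreement up to the length `m` -/
def Agree (m : ℕ) (A A' : Oracle) : Prop := ∀ u : List Bool, u.length ≤ m → A' u = A u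

theorem Agree.trans {m m' : ℕ} {A A' A'' : Oracle} (h : Agree m A A') (h' : Agree m' A' A'')
    (hm : m ≤ m') : Agree m A A'' := fun u hu => (h' u (hu.trans hm)).trans (h u hu)

/-- the promise is violated, whatever the oracle is beyond the length `m` -/
def Dead (M : NMach) (A : Oracle) (m : ℕ) : Prop := ∃ y, ∀ A', Agree m A A' → ¬ Prom M A' y

theorem Dead.mono {M : NMach} {A A' : Oracle} {m m' : ℕ} (h : Dead M A m) (hA : Agree m A A')
    (hm : m ≤ m') : Dead M A' m' := by
  obtain ⟨y, hy⟩ := h
  exact ⟨y, fun A'' h' => hy A'' (hA.trans h' hm)⟩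

/-- the number of paths depends on finitely many answers -/
theorem paths_local (M : NMach) (y : List Bool) : ∀ (n : ℕ) (a : List Bool),
    ∃ m, ∀ A A' : Oracle, Agree m A A' → ∀ v, M.paths A' y v n a = M.paths A y v n a := by
  intro n
  induction n with
  | zero => intro a; exact ⟨0, fun A A' _ v => rfl⟩
  | succ n ih =>
    intro a
    obtain ⟨m1, h1⟩ := ih (a ++ [false])
    obtain ⟨m2, h2⟩ := ih (a ++ [true])
    rcases hD : M.D (pairBits y a) with _ | ⟨b0, u⟩
    · exact ⟨0, fun A A' _ v => by simp only [NMach.paths, hD]⟩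
    · cases b0 with
      | false =>
        refine ⟨max u.length (max m1 m2), fun A A' h v => ?_⟩
        simp only [NMach.paths, hD]
        rw [h u (le_max_left _ _)]
        cases A u
        · exact h1 A A' (fun w hw => h w (by omega)) v
        · exact h2 A A' (fun w hw => h w (by omega)) v
      | true =>
        rcases u with _ | ⟨b, z⟩
        · refine ⟨max m1 m2, fun A A' h v => ?_⟩
          simp only [NMach.paths, hD]
          rw [h1 A A' (fun w hw => h w (by omega)) v, h2 A A' (fun w hw => h w (by omega)) v]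
        · exact ⟨0, fun A A' _ v => by simp only [NMach.paths, hD]⟩

instance NMach.countable : Countable NMach := by
  have h1 : Countable {D : List Bool → List Bool | PolyTime D} := countable_polyTime.to_subtype
  have h2 : Countable (Polynomial ℕ) := by
    have : Function.Injective (fun p : Polynomial ℕ => (p.toFinsupp.coeff : ℕ →₀ ℕ)) := by
      intro p q h
      ext n
      exact DFunLike.congr_fun h n
    exact this.countable
  let F : NMach → {D : List Bool → List Bool | PolyTime D} × Polynomial ℕ :=
    fun M => (⟨M.D, M.poly⟩, M.p)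
  have hF : Function.Injective F := by
    intro M N h
    obtain ⟨D, hD, p⟩ := M
    obtain ⟨D', hD', p'⟩ := N
    simp only [F, Prod.mk.injEq, Subtype.mk.injEq] at h
    obtain ⟨rfl, rfl⟩ := h
    rfl
  exact hF.countable

/-- the index of a machine -/
noncomputable def code : NMach → ℕ := (exists_injective_nat NMach).choose

theorem code_inj : Function.Injective code := (exists_injective_nat NMach).choose_spec

/-- the pair of a machine and a reduction is spoilt -/
def Good (M : NMach) (F : Alg) (A : Oracle) : Prop :=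
  (∀ y, Prom M A y) → ∃ x, ∀ y, F.out A x = some y →
    ¬ (x ∈ Lg A (code M) ↔ 3 * M.rej A y < M.acc A y)

/-- the invariant -/
def Inv (A : Oracle) (m : ℕ) : Prop :=
  (∀ u : List Bool, m < u.length → A u = false) ∧ ∀ M n, Dens A (code M) n ∨ Dead M A m

theorem ct_congr {A A' : Oracle} {i n : ℕ} (h : ∀ u ∈ reg i n, A' u = A u) (v : Bool) :
    ct A' i n v = ct A i n v := by
  unfold ct
  congr 1
  refine filter_congr fun u hu => ?_
  rw [h u hu]

theorem Dens.congr {A A' : Oracle} {i n : ℕ} (h : ∀ u ∈ reg i n, A' u = A u)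
    (hd : Dens A i n) : Dens A' i n := by
  unfold Dens at *
  rw [ct_congr h]
  exact hd

theorem ct_plug {A : Oracle} {i n : ℕ} (x : reg i n → Bool) (v : Bool) :
    ct (plug A (reg i n) x) i n v = (univ.filter (fun u => x u = v)).card := by
  unfold ct
  rw [← card_image_of_injective (univ.filter (fun u => x u = v)) Subtype.val_injective]
  congr 1
  ext u
  simp only [mem_filter, mem_image, mem_univ, true_and, Subtype.exists, exists_and_right,
    exists_eq_right]
  constructor
  · rintro ⟨h1, h2⟩
    refine ⟨h1, ?_⟩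
    simpa [plug, h1] using h2
  · rintro ⟨h1, h2⟩
    exact ⟨h1, by simpa [plug, h1] using h2⟩

/-- arbitrarily long inputs with few questions -/
theorem exists_length (M : NMach) (F : Alg) (b : Polynomial ℕ) (m : ℕ) : ∃ l n : ℕ, 12 ≤ l ∧
    n = l ^ 3 ∧ m < n ∧ ∀ t, t ≤ b.eval n → M.p.eval t + 1 ≤ 2 ^ l ∧ F.p.eval n ≤ 2 ^ l := by
  obtain ⟨N, hN⟩ := poly_le_two_pow (((M.p.comp b) + F.p + 1).comp (Polynomial.X ^ 3))
  refine ⟨N + m + 12, (N + m + 12) ^ 3, by omega, rfl, ?_, fun t ht => ?_⟩
  · calc m < N + m + 12 := by omega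
      _ = (N + m + 12) ^ 1 := (pow_one _).symm
      _ ≤ _ := Nat.pow_le_pow_right (by omega) (by norm_num)
  · have h := hN (N + m + 12) (by omega)
    simp only [Polynomial.eval_comp, Polynomial.eval_add, Polynomial.eval_pow,
      Polynomial.eval_X, Polynomial.eval_one] at h
    have h2 : M.p.eval t ≤ M.p.eval (b.eval ((N + m + 12) ^ 3)) := eval_mono M.p ht
    omega

end Pool.Agent.J4H45.BP
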