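import Pool.Agent.J4H45.BP.Stable

/-!
# Dominance: after fixing few coordinates one label robustly dominates
-/

namespace Pool.Agent.J4H45.BP

open Finset

section

variable {ι Θ : Type} [Fintype ι] [DecidableEq ι] [Fintype Θ]

/-- the terms with label `v` -/
def K (lab : Θ → Bool) (v : Bool) : Finset Θ := univ.filter (fun θ => lab θ = v)

theorem Zs_K (P : ι → Bool → ℝ) (C : Θ → ι → Option Bool) (lab : Θ → Bool) (v : Bool) :
    Zs P C (K lab (!v)) + Zs P C (K lab v) = Zs P C univ := by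
  unfold Zs K
  rw [← sum_filter_add_sum_filter_not univ (fun θ => lab θ = !v)]
  congr 1
  refine sum_congr ?_ fun _ _ => rfl
  ext θ
  simp only [mem_filter, mem_univ, true_and]
  cases lab θ <;> cases v <;> simp

/-- the label `v` dominates robustly -/
def Domi (π : Bool → ℝ) (C : Θ → ι → Option Bool) (lab : Θ → Bool) (S : ι → Option Bool)
    (b : ℕ) (v : Bool) : Prop :=
  ∀ S', Ext S S' b → Zc 1 π C S' (K lab (!v)) ≤ Zc 1 π C S' univ / 3

theorem Domi.mono {π : Bool → ℝ} {C : Θ → ι → Option Bool} {lab : Θ → Bool}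
    {S : ι → Option Bool} {b b' : ℕ} {v : Bool} (h : Domi π C lab S b v) (hb : b' ≤ b) :
    Domi π C lab S b' v := fun S' hS' => h S' (hS'.mono hb)

theorem Domi.ext {π : Bool → ℝ} {C : Θ → ι → Option Bool} {lab : Θ → Bool}
    {S S' : ι → Option Bool} {a b : ℕ} {v : Bool} (h : Domi π C lab S (a + b) v)
    (hS : Ext S S' a) : Domi π C lab S' b v := fun S'' hS'' => h S'' (hS.trans hS'')

/-- the second moment of the number of consistent terms -/
theorem second_moment {q : ℕ} {π : Bool → ℝ} (hπ : Dist π) {C : Θ → ι → Option Bool}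
    (hC : ∀ θ, (dom (C θ)).card ≤ q) {S : ι → Option Bool} {s : Finset Θ} {κ : ℝ}
    (h : ∀ S', Ext S S' q → Zc 1 π C S' s ≤ Zc 1 π C S s + κ) :
    ∑ x, mu π S x * (((cnt C s x : ℝ) - Zc 1 π C S s) ^ 2) ≤ Zc 1 π C S s * κ := by
  have h1 := E_cnt hπ S C s
  have h2 := E_cnt2 hπ S C s
  have h3 := sum_mu hπ S
  have e : ∑ x, mu π S x * (((cnt C s x : ℝ) - Zc 1 π C S s) ^ 2) =
      ∑ x, mu π S x * ((cnt C s x : ℝ) * cnt C s x) -
      2 * Zc 1 π C S s * ∑ x, mu π S x * (cnt C s x : ℝ) +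
      (Zc 1 π C S s) ^ 2 * ∑ x, mu π S x := by
    rw [mul_sum, mul_sum, ← sum_sub_distrib, ← sum_add_distrib]
    exact sum_congr rfl fun x _ => by ring
  rw [e, h1, h2, h3]
  have h4 : ∑ θ ∈ s, wt (marg (fun _ => 1) π S) (C θ) *
      Zs (marg (fun _ => 1) π (ovr S (C θ))) C s ≤
      ∑ θ ∈ s, wt (marg (fun _ => 1) π S) (C θ) * (Zc 1 π C S s + κ) := by
    refine sum_le_sum fun θ _ => ?_
    by_cases h5 : wt (marg (fun _ => 1) π S) (C θ) = 0
    · rw [h5, zero_mul, zero_mul]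
    · exact mul_le_mul_of_nonneg_left (h _ (ext_ovr (hC θ) h5))
        (wt_nonneg (fun _ => zero_le_one) hπ _ _)
  rw [← sum_mul] at h4
  have h5 : ∑ θ ∈ s, wt (marg (fun _ => 1) π S) (C θ) = Zc 1 π C S s := rfl
  rw [h5] at h4
  have h6 : Zs (marg (fun _ => 1) π S) C s = Zc 1 π C S s := rfl
  rw [h6]
  nlinarith

theorem exists_of_mean {π : Bool → ℝ} (hπ : Dist π) (S : ι → Option Bool)
    (g : (ι → Bool) → ℝ) {v : ℝ} (h : ∑ x, mu π S x * g x ≤ v) : ∃ x, Con S x ∧ g x ≤ v := by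
  by_contra hcon
  push Not at hcon
  have h1 : ∀ x, mu π S x * v ≤ mu π S x * g x := by
    intro x
    by_cases hx : mu π S x = 0
    · rw [hx]; simp
    · exact mul_le_mul_of_nonneg_left (hcon x (con_of_mu hx)).le (mu_nonneg hπ S x)
  obtain ⟨x0, hx0⟩ : ∃ x, mu π S x ≠ 0 := by
    by_contra h2
    push Not at h2
    have := sum_mu hπ S
    simp [h2] at this
  have h2 : ∑ x, mu π S x * v < ∑ x, mu π S x * g x := by
    refine sum_lt_sum (fun x _ => h1 x) ⟨x0, mem_univ _, ?_⟩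
    exact mul_lt_mul_of_pos_left (hcon x0 (con_of_mu hx0))
      (lt_of_le_of_ne (mu_nonneg hπ S x0) (Ne.symm hx0))
  rw [← sum_mul, sum_mu hπ S, one_mul] at h2
  linarith

theorem Zc_univ_ge_one {π : Bool → ℝ} (hπ : Dist π) {C : Θ → ι → Option Bool}
    {S : ι → Option Bool} (h : ∀ x, Con S x → 1 ≤ cnt C univ x) : 1 ≤ Zc 1 π C S univ := by
  rw [Zc, ← E_cnt hπ S C univ, ← sum_mu hπ S]
  refine sum_le_sum fun x _ => ?_
  by_cases hx : mu π S x = 0
  · rw [hx, zero_mul]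
  · have h1 : (1 : ℝ) ≤ cnt C univ x := by exact_mod_cast h x (con_of_mu hx)
    have h2 := mu_nonneg hπ S x
    nlinarith

theorem Con.of_sub {S S' : ι → Option Bool} (h : Sub S S') {x : ι → Bool} (hx : Con S' x) :
    Con S x := fun i b hi => hx i b (h i b hi)

/-- a stable partial assignment has a robustly dominating label -/
theorem domi_of_stable {q : ℕ} (hq : 1 ≤ q) {π : Bool → ℝ} (hπ : Dist π)
    {C : Θ → ι → Option Bool} (hC : ∀ θ, (dom (C θ)).card ≤ q) {lab : Θ → Bool}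
    {S : ι → Option Bool} {b : ℕ} (hb : q ≤ b)
    (h : Stable (disc q) π C S b (1 / (8000 * q)))
    (hP : ∀ x, Con S x → ∃ v, 3 * cnt C (K lab (!v)) x < cnt C (K lab v) x) :
    ∃ v, Domi π C lab S b v := by
  classical
  set Z := Zc 1 π C S univ with hZ
  have hZ0 : 0 ≤ Z := Zs_nonneg (fun _ => zero_le_one) hπ _ _ _
  -- the weight of a set of terms hardly rises
  have hup : ∀ (s : Finset Θ) S', Ext S S' b → Zc 1 π C S' s ≤ Zc 1 π C S s + Z / 1000 := by
    intro s S' hS'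
    have h1 := Zs_ext_eq (ζ := fun _ => 1) (π := π) hS'.1 C s
    have h2 := (quiet_of_stable hq hπ hC h hS').2
    have h3 : Zc 1 π C S' (s ∩ touch C (nw S S')) ≤ Zc 1 π C S' (touch C (nw S S')) :=
      Zs_mono (fun _ => zero_le_one) hπ _ _ inter_subset_right
    have h4 : 0 ≤ Zc 1 π C S (s ∩ touch C (nw S S')) :=
      Zs_nonneg (fun _ => zero_le_one) hπ _ _ _
    unfold Zc at *
    linarith
  have hdown : ∀ S', Ext S S' b → Z - Z / 1000 ≤ Zc 1 π C S' univ := by
    intro S' hS'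
    have h1 := Zs_ext_eq (ζ := fun _ => 1) (π := π) hS'.1 C univ
    rw [univ_inter] at h1
    have h2 := (quiet_of_stable hq hπ hC h hS').1
    have h4 : 0 ≤ Zc 1 π C S' (touch C (nw S S')) :=
      Zs_nonneg (fun _ => zero_le_one) hπ _ _ _
    unfold Zc at *
    linarith
  have hm : ∀ v, ∑ x, mu π S x * (((cnt C (K lab v) x : ℝ) - Zc 1 π C S (K lab v)) ^ 2) ≤
      Zc 1 π C S (K lab v) * (Z / 1000) := fun v =>
    second_moment hπ hC fun S' hS' => hup _ S' (hS'.mono hb)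
  have hsum : Zc 1 π C S (K lab true) + Zc 1 π C S (K lab false) = Z := Zs_K _ _ lab false
  obtain ⟨x, hx, hxv⟩ := exists_of_mean hπ S
    (fun x => ((cnt C (K lab true) x : ℝ) - Zc 1 π C S (K lab true)) ^ 2 +
      ((cnt C (K lab false) x : ℝ) - Zc 1 π C S (K lab false)) ^ 2) (v := Z ^ 2 / 1000) (by
      have h1 := hm true
      have h2 := hm false
      simp only [mul_add, sum_add_distrib]
      have h3 : Zc 1 π C S (K lab true) * (Z / 1000) + Zc 1 π C S (K lab false) * (Z / 1000) =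
          Z ^ 2 / 1000 := by rw [← add_mul, hsum]; ring
      linarith)
  obtain ⟨v, hv⟩ := hP x hx
  have hxv' : ((cnt C (K lab (!v)) x : ℝ) - Zc 1 π C S (K lab (!v))) ^ 2 +
      ((cnt C (K lab v) x : ℝ) - Zc 1 π C S (K lab v)) ^ 2 ≤ Z ^ 2 / 1000 := by
    cases v
    · simpa using hxv
    · simp only [Bool.not_true]
      linarith
  have hsum' : Zc 1 π C S (K lab (!v)) + Zc 1 π C S (K lab v) = Z := Zs_K _ _ lab v
  have hvR : (3 : ℝ) * cnt C (K lab (!v)) x < cnt C (K lab v) x := by exact_mod_cast hv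
  have hA : Zc 1 π C S (K lab (!v)) ≤ 11 / 40 * Z := by
    generalize (cnt C (K lab (!v)) x : ℝ) = ca at *
    generalize (cnt C (K lab v) x : ℝ) = cr at *
    generalize Zc 1 π C S (K lab (!v)) = a at *
    generalize Zc 1 π C S (K lab v) = r at *
    have h1 : ((cr - r) - 3 * (ca - a)) ^ 2 ≤ (Z / 10) ^ 2 := by
      nlinarith [sq_nonneg (3 * (cr - r) + (ca - a))]
    have h2 := (abs_le_of_sq_le_sq' h1 (by positivity)).2
    linarith
  refine ⟨v, fun S' hS' => ?_⟩
  have h1 := hup (K lab (!v)) S' hS'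
  have h2 := hdown S' hS'
  linarith

/-- after fixing few coordinates a label dominates robustly -/
theorem exists_domi {q : ℕ} (hq : 1 ≤ q) {π : Bool → ℝ} (hπ : Dist π)
    {C : Θ → ι → Option Bool} (hC : ∀ θ, (dom (C θ)).card ≤ q) {lab : Θ → Bool}
    {S : ι → Option Bool} {b L : ℕ} (hb : q ≤ b)
    (hP : ∀ x, Con S x → ∃ v, 3 * cnt C (K lab (!v)) x < cnt C (K lab v) x)
    (hL : 2 * (Fintype.card Θ : ℝ) < (1 + 1 / (8000 * (q : ℝ))) ^ L) :
    ∃ S', Ext S S' (b * L) ∧ ∃ v, Domi π C lab S' b v := by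
  have h1 : ∀ x, Con S x → 1 ≤ cnt C (univ : Finset Θ) x := by
    intro x hx
    obtain ⟨v, hv⟩ := hP x hx
    have : cnt C (K lab v) x ≤ cnt C (univ : Finset Θ) x :=
      card_le_card (filter_subset_filter _ (subset_univ _))
    omega
  have h2 := Zc_univ_ge_one hπ h1
  have h3 := Zc_discount (disc_pos hq) (disc_le_one q) hπ (disc_pow hq) S hC univ
  have hγ : (0 : ℝ) ≤ 1 / (8000 * (q : ℝ)) := by positivity
  obtain ⟨S', h4, h5⟩ := exists_stable (disc_pos hq).le (disc_le_one q) hπ hγ (L := L) b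
    (C := C) (S := S) (by
      have h6 : (0 : ℝ) < (1 + 1 / (8000 * (q : ℝ))) ^ L := by positivity
      nlinarith)
  exact ⟨S', h4, domi_of_stable hq hπ hC hb h5 fun x hx => hP x (Con.of_sub h4.1 hx)⟩

end

end Pool.Agent.J4H45.BP
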