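import Mathlib

/-!
# Weights of families of terms

A term is a partial assignment of the coordinates. A family of terms is weighted by product
measures conditioned on a partial assignment, with a discount for every read coordinate.
-/

namespace Pool.Agent.J4H45.BP

open Finset

/-- the factor of a coordinate -/
def fac (P : Bool → ℝ) : Option Bool → ℝ
  | none => 1
  | some b => P b

/-- the factors of the values of a coordinate: discounted probabilities for a free coordinate -/
def margv (z : ℝ) (π : Bool → ℝ) : Option Bool → Bool → ℝ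
  | none, b => z * π b
  | some b', b => if b = b' then 1 else 0

/-- the marginals of a partial assignment -/
def marg {ι : Type} (ζ : ι → ℝ) (π : Bool → ℝ) (S : ι → Option Bool) (i : ι) : Bool → ℝ :=
  margv (ζ i) π (S i)

section

variable {ι Θ : Type} [Fintype ι] [DecidableEq ι] [Fintype Θ]

/-- the weight of a term -/
def wt (P : ι → Bool → ℝ) (c : ι → Option Bool) : ℝ := ∏ i, fac (P i) (c i)

/-- the weight of a set of terms -/
def Zs (P : ι → Bool → ℝ) (C : Θ → ι → Option Bool) (s : Finset Θ) : ℝ := ∑ θ ∈ s, wt P (C θ)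

/-- a probability distribution on the values of a coordinate, without null values -/
structure Dist (π : Bool → ℝ) : Prop where
  pos : ∀ b, 0 < π b
  sum : π true + π false = 1

theorem Dist.le_one {π : Bool → ℝ} (h : Dist π) (b : Bool) : π b ≤ 1 := by
  have h1 := h.pos true
  have h2 := h.pos false
  have h3 := h.sum
  cases b <;> linarith

theorem Dist.sum' {π : Bool → ℝ} (h : Dist π) : π false + π true = 1 := by
  rw [add_comm]; exact h.sum

theorem fac_margv_nonneg {z : ℝ} {π : Bool → ℝ} (hz : 0 ≤ z) (h : Dist π) (s o : Option Bool) :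
    0 ≤ fac (margv z π s) o := by
  rcases o with _ | b
  · exact zero_le_one
  · rcases s with _ | b'
    · exact mul_nonneg hz (h.pos b).le
    · simp only [fac, margv]; split_ifs <;> norm_num

theorem fac_margv_le_one {z : ℝ} {π : Bool → ℝ} (_hz : 0 ≤ z) (hz1 : z ≤ 1) (h : Dist π)
    (s o : Option Bool) : fac (margv z π s) o ≤ 1 := by
  rcases o with _ | b
  · exact le_refl _
  · rcases s with _ | b'
    · exact mul_le_one₀ hz1 (h.pos b).le (h.le_one b)
    · simp only [fac, margv]; split_ifs <;> norm_num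

theorem wt_nonneg {ζ : ι → ℝ} {π : Bool → ℝ} (hz : ∀ i, 0 ≤ ζ i) (h : Dist π)
    (S c : ι → Option Bool) : 0 ≤ wt (marg ζ π S) c :=
  prod_nonneg fun i _ => fac_margv_nonneg (hz i) h _ _

theorem wt_le_one {ζ : ι → ℝ} {π : Bool → ℝ} (hz : ∀ i, 0 ≤ ζ i) (hz1 : ∀ i, ζ i ≤ 1)
    (h : Dist π) (S c : ι → Option Bool) : wt (marg ζ π S) c ≤ 1 :=
  prod_le_one (fun i _ => fac_margv_nonneg (hz i) h _ _)
    fun i _ => fac_margv_le_one (hz i) (hz1 i) h _ _

theorem Zs_nonneg {ζ : ι → ℝ} {π : Bool → ℝ} (hz : ∀ i, 0 ≤ ζ i) (h : Dist π)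
    (S : ι → Option Bool) (C : Θ → ι → Option Bool) (s : Finset Θ) :
    0 ≤ Zs (marg ζ π S) C s :=
  sum_nonneg fun _ _ => wt_nonneg hz h _ _

theorem Zs_mono {ζ : ι → ℝ} {π : Bool → ℝ} (hz : ∀ i, 0 ≤ ζ i) (h : Dist π)
    (S : ι → Option Bool) (C : Θ → ι → Option Bool) {s t : Finset Θ} (hst : s ⊆ t) :
    Zs (marg ζ π S) C s ≤ Zs (marg ζ π S) C t :=
  sum_le_sum_of_subset_of_nonneg hst fun _ _ _ => wt_nonneg hz h _ _

theorem Zs_le_card {ζ : ι → ℝ} {π : Bool → ℝ} (hz : ∀ i, 0 ≤ ζ i) (hz1 : ∀ i, ζ i ≤ 1)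
    (h : Dist π) (S : ι → Option Bool) (C : Θ → ι → Option Bool) (s : Finset Θ) :
    Zs (marg ζ π S) C s ≤ s.card := by
  refine (sum_le_sum fun θ _ => wt_le_one hz hz1 h S (C θ)).trans ?_
  simp

/-- the free coordinates read by the term -/
def rd (S c : ι → Option Bool) : Finset ι := univ.filter (fun i => S i = none ∧ c i ≠ none)

/-- the coordinates read by the term -/
def dom (c : ι → Option Bool) : Finset ι := univ.filter (fun i => c i ≠ none)

theorem rd_subset (S c : ι → Option Bool) : rd S c ⊆ dom c := by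
  intro i hi
  simp only [rd, dom, mem_filter, mem_univ, true_and] at hi ⊢
  exact hi.2

/-- the discount factors out -/
theorem wt_eq (ζ : ι → ℝ) (π : Bool → ℝ) (S c : ι → Option Bool) :
    wt (marg ζ π S) c = (∏ i ∈ rd S c, ζ i) * wt (marg (fun _ => 1) π S) c := by
  rw [wt, wt, rd, prod_filter, ← prod_mul_distrib]
  refine prod_congr rfl fun i _ => ?_
  simp only [marg]
  rcases hS : S i with _ | b' <;> rcases hc : c i with _ | b <;> simp [fac, margv]

theorem wt_const (z : ℝ) (π : Bool → ℝ) (S c : ι → Option Bool) :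
    wt (marg (fun _ => z) π S) c = z ^ (rd S c).card * wt (marg (fun _ => 1) π S) c := by
  rw [wt_eq, prod_const]

/-- the discounted weight is not much smaller -/
theorem wt_discount {z : ℝ} {π : Bool → ℝ} (hz : 0 < z) (hz1 : z ≤ 1) (h : Dist π) {q : ℕ}
    (hq : 1 / 2 ≤ z ^ q) (S : ι → Option Bool) {c : ι → Option Bool} (hc : (dom c).card ≤ q) :
    wt (marg (fun _ => 1) π S) c ≤ 2 * wt (marg (fun _ => z) π S) c := by
  rw [wt_const z]
  have h1 : (1 : ℝ) / 2 ≤ z ^ (rd S c).card :=
    hq.trans (pow_le_pow_of_le_one hz.le hz1 ((card_le_card (rd_subset S c)).trans hc))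
  have h2 : 0 ≤ wt (marg (fun _ => (1 : ℝ)) π S) c := wt_nonneg (fun _ => zero_le_one) h _ _
  nlinarith

theorem wt_discount_le {z : ℝ} {π : Bool → ℝ} (hz : 0 < z) (hz1 : z ≤ 1) (h : Dist π)
    (S : ι → Option Bool) (c : ι → Option Bool) :
    wt (marg (fun _ => z) π S) c ≤ wt (marg (fun _ => 1) π S) c := by
  rw [wt_const z]
  have h1 : z ^ (rd S c).card ≤ 1 := pow_le_one₀ hz.le hz1
  have h2 : 0 ≤ wt (marg (fun _ => (1 : ℝ)) π S) c := wt_nonneg (fun _ => zero_le_one) h _ _
  nlinarith

/-- extension by at most `b` coordinates -/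
def nw (S S' : ι → Option Bool) : Finset ι := univ.filter (fun i => S i = none ∧ S' i ≠ none)

/-- `S'` extends `S` -/
def Sub (S S' : ι → Option Bool) : Prop := ∀ i b, S i = some b → S' i = some b

/-- `S'` extends `S` by at most `b` coordinates -/
def Ext (S S' : ι → Option Bool) (b : ℕ) : Prop := Sub S S' ∧ (nw S S').card ≤ b

omit [Fintype ι] [DecidableEq ι] in
theorem Sub.trans {S S' S'' : ι → Option Bool} (h : Sub S S') (h' : Sub S' S'') : Sub S S'' :=
  fun i b hi => h' i b (h i b hi)

omit [Fintype ι] [DecidableEq ι] in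
theorem Sub.refl (S : ι → Option Bool) : Sub S S := fun _ _ h => h

theorem Ext.refl (S : ι → Option Bool) (b : ℕ) : Ext S S b := by
  refine ⟨Sub.refl S, ?_⟩
  have : nw S S = ∅ := by
    ext i
    simp only [nw, mem_filter, mem_univ, true_and, notMem_empty, iff_false]
    tauto
  rw [this]; simp

theorem Ext.trans {S S' S'' : ι → Option Bool} {a b : ℕ} (h : Ext S S' a) (h' : Ext S' S'' b) :
    Ext S S'' (a + b) := by
  refine ⟨h.1.trans h'.1, ?_⟩
  have : nw S S'' ⊆ nw S S' ∪ nw S' S'' := by
    intro i hi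
    simp only [nw, mem_union, mem_filter, mem_univ, true_and] at hi ⊢
    by_cases h1 : S' i = none
    · exact Or.inr ⟨h1, hi.2⟩
    · exact Or.inl ⟨hi.1, h1⟩
  exact (card_le_card this).trans ((card_union_le _ _).trans (add_le_add h.2 h'.2))

theorem Ext.mono {S S' : ι → Option Bool} {a b : ℕ} (h : Ext S S' a) (hab : a ≤ b) :
    Ext S S' b := ⟨h.1, h.2.trans hab⟩

/-- the terms which read a coordinate of `D` -/
def touch (C : Θ → ι → Option Bool) (D : Finset ι) : Finset Θ :=
  univ.filter (fun θ => ∃ i ∈ D, C θ i ≠ none)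

omit [DecidableEq ι] in
theorem wt_congr {P P' : ι → Bool → ℝ} {c : ι → Option Bool}
    (h : ∀ i, c i ≠ none → P i = P' i) : wt P c = wt P' c := by
  refine prod_congr rfl fun i _ => ?_
  rcases hc : c i with _ | b
  · rfl
  · rw [h i (by rw [hc]; simp)]

/-- the weights of the other terms do not change -/
theorem wt_untouched {ζ : ι → ℝ} {π : Bool → ℝ} {S S' : ι → Option Bool} (h : Sub S S')
    {C : Θ → ι → Option Bool} {θ : Θ} (hθ : θ ∉ touch C (nw S S')) :
    wt (marg ζ π S') (C θ) = wt (marg ζ π S) (C θ) := by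
  refine wt_congr fun i hi => ?_
  simp only [touch, nw, mem_filter, mem_univ, true_and, not_exists, not_and, not_not] at hθ
  have h1 := hθ i
  rcases hS : S i with _ | b
  · have h2 : S' i = none := by
      by_contra h3
      exact hi (h1 ⟨hS, h3⟩)
    simp only [marg, hS, h2]
  · simp only [marg, hS, h i b hS]

/-- change of the weight of a set of terms along an extension -/
theorem Zs_ext_eq {ζ : ι → ℝ} {π : Bool → ℝ} {S S' : ι → Option Bool} (h : Sub S S')
    (C : Θ → ι → Option Bool) (s : Finset Θ) [DecidableEq Θ] :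
    Zs (marg ζ π S') C s = Zs (marg ζ π S) C s - Zs (marg ζ π S) C (s ∩ touch C (nw S S')) +
      Zs (marg ζ π S') C (s ∩ touch C (nw S S')) := by
  have h1 : ∀ P : ι → Bool → ℝ, Zs P C s = Zs P C (s ∩ touch C (nw S S')) +
      Zs P C (s \ touch C (nw S S')) := by
    intro P
    unfold Zs
    exact (sum_inter_add_sum_sdiff _ _ _).symm
  have h2 : Zs (marg ζ π S') C (s \ touch C (nw S S')) =
      Zs (marg ζ π S) C (s \ touch C (nw S S')) :=
    sum_congr rfl fun θ hθ => wt_untouched h (mem_sdiff.1 hθ).2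
  rw [h1 (marg ζ π S'), h1 (marg ζ π S), h2]
  ring

/-- fixing one coordinate -/
theorem wt_split {ζ ζ' : ι → ℝ} {π : Bool → ℝ} (hπ : Dist π) {S : ι → Option Bool} {i : ι}
    (hi : S i = none) (h1 : ζ i = 1) (hζ : ∀ j, j ≠ i → ζ j = ζ' j) (c : ι → Option Bool) :
    wt (marg ζ π S) c = π true * wt (marg ζ' π (Function.update S i (some true))) c +
      π false * wt (marg ζ' π (Function.update S i (some false))) c := by
  have hR : ∀ b, ∏ j ∈ univ.erase i, fac (marg ζ' π (Function.update S i (some b)) j) (c j) =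
      ∏ j ∈ univ.erase i, fac (marg ζ π S j) (c j) := by
    intro b
    refine prod_congr rfl fun j hj => ?_
    have hj' := (mem_erase.1 hj).1
    simp only [marg, Function.update_of_ne hj', hζ j hj']
  have hw : ∀ P : ι → Bool → ℝ, wt P c = fac (P i) (c i) * ∏ j ∈ univ.erase i, fac (P j) (c j) :=
    fun P => (mul_prod_erase univ (fun j => fac (P j) (c j)) (mem_univ i)).symm
  rw [hw, hw, hw, hR, hR]
  have hs := hπ.sum
  generalize (∏ j ∈ univ.erase i, fac (marg ζ π S j) (c j)) = R
  simp only [marg, Function.update_self, hi, h1]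
  rcases hc : c i with _ | b
  · simp only [fac]
    linear_combination (-R) * hs
  · cases b <;> simp [fac, margv]

theorem Zs_split {ζ ζ' : ι → ℝ} {π : Bool → ℝ} (hπ : Dist π) {S : ι → Option Bool} {i : ι}
    (hi : S i = none) (h1 : ζ i = 1) (hζ : ∀ j, j ≠ i → ζ j = ζ' j) (C : Θ → ι → Option Bool)
    (s : Finset Θ) :
    Zs (marg ζ π S) C s = π true * Zs (marg ζ' π (Function.update S i (some true))) C s +
      π false * Zs (marg ζ' π (Function.update S i (some false))) C s := by
  unfold Zs
  rw [mul_sum, mul_sum, ← sum_add_distrib]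
  exact sum_congr rfl fun θ _ => wt_split hπ hi h1 hζ _

/-- the discount is removed on the set `D` -/
def undisc (z : ℝ) (D : Finset ι) (i : ι) : ℝ := if i ∈ D then 1 else z

theorem greedy {z : ℝ} {π : Bool → ℝ} (hπ : Dist π) (C : Θ → ι → Option Bool) (s : Finset Θ) :
    ∀ (D : Finset ι) (S : ι → Option Bool), (∀ i ∈ D, S i = none) →
      ∃ S', Ext S S' D.card ∧
        Zs (marg (undisc z D) π S) C s ≤ Zs (marg (fun _ => z) π S') C s := by
  intro D
  induction D using Finset.induction_on with
  | empty =>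
    intro S _
    refine ⟨S, Ext.refl _ _, le_of_eq ?_⟩
    have : undisc z (∅ : Finset ι) = fun _ => z := by
      funext i; simp [undisc]
    rw [this]
  | insert i D hiD ih =>
    intro S hS
    have hi : S i = none := hS i (mem_insert_self _ _)
    have hsp := Zs_split (ζ := undisc z (insert i D)) (ζ' := undisc z D) hπ hi
      (by simp [undisc]) (by
        intro j hj
        simp [undisc, hj]) C s
    obtain ⟨b, hb⟩ : ∃ b, Zs (marg (undisc z (insert i D)) π S) C s ≤
        Zs (marg (undisc z D) π (Function.update S i (some b))) C s := by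
      by_contra hcon
      push Not at hcon
      have h1 := hcon true
      have h2 := hcon false
      have h3 := hπ.pos true
      have h4 := hπ.pos false
      have h5 := hπ.sum
      have h6 : Zs (marg (undisc z (insert i D)) π S) C s =
          π true * Zs (marg (undisc z (insert i D)) π S) C s +
          π false * Zs (marg (undisc z (insert i D)) π S) C s := by
        rw [← add_mul, h5, one_mul]
      have h7 := mul_lt_mul_of_pos_left h1 h3
      have h8 := mul_lt_mul_of_pos_left h2 h4
      linarith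
    obtain ⟨S', hS', hle⟩ := ih (Function.update S i (some b)) (by
      intro j hj
      have : j ≠ i := fun h => hiD (h ▸ hj)
      rw [Function.update_of_ne this]
      exact hS j (mem_insert_of_mem hj))
    refine ⟨S', ?_, hb.trans hle⟩
    have h1 : Ext S (Function.update S i (some b)) 1 := by
      constructor
      · intro j b' hj
        have : j ≠ i := by
          rintro rfl
          rw [hi] at hj
          exact absurd hj (by simp)
        rw [Function.update_of_ne this, hj]
      · have : nw S (Function.update S i (some b)) ⊆ {i} := by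
          intro j hj
          simp only [nw, mem_filter, mem_univ, true_and] at hj
          rw [mem_singleton]
          by_contra hne
          rw [Function.update_of_ne hne] at hj
          exact hj.2 hj.1
        exact (card_le_card this).trans (by simp)
    have h2 := h1.trans hS'
    rw [card_insert_of_notMem hiD]
    exact h2.mono (by omega)

/-- removing the discount on `D` raises the weight of the terms which read `D` -/
theorem wt_undisc {z : ℝ} {π : Bool → ℝ} (hz : 0 < z) (hz1 : z ≤ 1) (hπ : Dist π)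
    {S : ι → Option Bool} {D : Finset ι} (hD : ∀ i ∈ D, S i = none) {c : ι → Option Bool}
    (hc : ∃ i ∈ D, c i ≠ none) :
    1 / z * wt (marg (fun _ => z) π S) c ≤ wt (marg (undisc z D) π S) c := by
  obtain ⟨i, hi, hci⟩ := hc
  rw [wt_eq (fun _ => z), wt_eq (undisc z D)]
  have hmem : i ∈ rd S c := by
    simp only [rd, mem_filter, mem_univ, true_and]
    exact ⟨hD i hi, hci⟩
  rw [← mul_prod_erase _ _ hmem, ← mul_prod_erase (rd S c) (undisc z D) hmem]
  have h1 : undisc z D i = 1 := by simp [undisc, hi]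
  have h2 : ∏ j ∈ (rd S c).erase i, z ≤ ∏ j ∈ (rd S c).erase i, undisc z D j := by
    refine prod_le_prod (fun j _ => hz.le) fun j _ => ?_
    unfold undisc
    split_ifs
    · exact hz1
    · exact le_refl _
  have h3 : 0 ≤ wt (marg (fun _ => (1 : ℝ)) π S) c := wt_nonneg (fun _ => zero_le_one) hπ _ _
  have h4 : 1 / z * (z * (∏ j ∈ (rd S c).erase i, z) * wt (marg (fun _ => 1) π S) c) =
      (∏ j ∈ (rd S c).erase i, z) * wt (marg (fun _ => 1) π S) c := by
    field_simp
  rw [h4, h1, one_mul]
  exact mul_le_mul_of_nonneg_right h2 h3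

theorem wt_undisc' {z : ℝ} {π : Bool → ℝ} (hz : 0 < z) (hz1 : z ≤ 1) (hπ : Dist π)
    (S : ι → Option Bool) (D : Finset ι) (c : ι → Option Bool) :
    wt (marg (fun _ => z) π S) c ≤ wt (marg (undisc z D) π S) c := by
  rw [wt_eq (fun _ => z), wt_eq (undisc z D)]
  refine mul_le_mul_of_nonneg_right ?_ (wt_nonneg (fun _ => zero_le_one) hπ _ _)
  refine prod_le_prod (fun j _ => hz.le) fun j _ => ?_
  unfold undisc
  split_ifs
  · exact hz1
  · exact le_refl _

theorem Zs_undisc {z : ℝ} {π : Bool → ℝ} (hz : 0 < z) (hz1 : z ≤ 1) (hπ : Dist π)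
    {S : ι → Option Bool} {D : Finset ι} (hD : ∀ i ∈ D, S i = none) (C : Θ → ι → Option Bool) :
    Zs (marg (fun _ => z) π S) C univ + (1 / z - 1) * Zs (marg (fun _ => z) π S) C (touch C D) ≤
      Zs (marg (undisc z D) π S) C univ := by
  classical
  have h1 : ∀ P : ι → Bool → ℝ, Zs P C univ = Zs P C (touch C D) +
      Zs P C (univ \ touch C D) := by
    intro P
    unfold Zs
    rw [← sum_inter_add_sum_sdiff univ (touch C D), univ_inter]
  rw [h1 (marg (fun _ => z) π S), h1 (marg (undisc z D) π S)]
  have h2 : 1 / z * Zs (marg (fun _ => z) π S) C (touch C D) ≤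
      Zs (marg (undisc z D) π S) C (touch C D) := by
    unfold Zs
    rw [mul_sum]
    refine sum_le_sum fun θ hθ => wt_undisc hz hz1 hπ hD ?_
    simpa [touch] using hθ
  have h3 : Zs (marg (fun _ => z) π S) C (univ \ touch C D) ≤
      Zs (marg (undisc z D) π S) C (univ \ touch C D) :=
    sum_le_sum fun θ _ => wt_undisc' hz hz1 hπ _ _ _
  linarith

end

end Pool.Agent.J4H45.BP
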