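import Pool.Agent.J4H45.BP.Diag

/-!
# An oracle relative to which `BPP_path` has no complete sets
-/

namespace Pool.Agent.J4H45.BP

open Finset Pool.Agent.NPC Pool.Agent.H628R3.RO

theorem length_of_mem_reg {i n : ℕ} {u : List Bool} (h : u ∈ reg i n) :
    u.length = i + 1 + n := by
  obtain ⟨w, h1, rfl⟩ := mem_reg.1 h
  rw [length_str, h1]

theorem reg_disj {i i' n n' : ℕ} {u : List Bool} (h : u ∈ reg i n) (h' : u ∈ reg i' n') :
    i = i' ∧ n = n' := by
  obtain ⟨w, h1, rfl⟩ := mem_reg.1 h
  obtain ⟨w', h2, h3⟩ := mem_reg.1 h'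
  obtain ⟨rfl, rfl⟩ := str_inj h3
  exact ⟨rfl, h1.symm.trans h2⟩

theorem plug_not_mem {A : Oracle} {R : Finset (List Bool)} {x : R → Bool} {u : List Bool}
    (h : u ∉ R) : plug A R x u = A u := by simp [plug, h]

theorem plug_mem {A : Oracle} {R : Finset (List Bool)} {x : R → Bool} {u : List Bool}
    (h : u ∈ R) : plug A R x u = x ⟨u, h⟩ := by simp [plug, h]

/-- one stage of the construction -/
theorem stage (M : NMach) (F : Alg) {A : Oracle} {m : ℕ} (h : Inv A m) :
    ∃ A' m', m < m' ∧ Agree m A A' ∧ Inv A' m' ∧ ∀ A'', Agree m' A' A'' → Good M F A'' := by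
  classical
  by_cases hdead : Dead M A m
  · refine ⟨A, m + 1, by omega, fun _ _ => rfl, ⟨fun u hu => h.1 u (by omega), fun M' n =>
      (h.2 M' n).imp id (fun hd => hd.mono (fun _ _ => rfl) (by omega))⟩,
      fun A'' hA'' hprom => ?_⟩
    obtain ⟨y, hy⟩ := hdead
    exact absurd (hprom y) (hy A'' (fun u hu => hA'' u (by omega)))
  obtain ⟨b, hb⟩ := F.out_length
  obtain ⟨qb, hqb⟩ := F.out_local
  obtain ⟨l, n, hl, hn, hmn, hgrow⟩ := exists_length M F b m
  obtain ⟨x0, hx0⟩ : ∃ x0 : List Bool, x0.length = n := ⟨List.replicate n false, by simp⟩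
  obtain ⟨Q, hQc, hQl, hQ⟩ := hqb A x0
  rw [hx0] at hQc hQl
  obtain ⟨y0, hy0⟩ : ∃ y0 : List Bool, y0 = (F.out A x0).getD [] := ⟨_, rfl⟩
  have hy0l : y0.length ≤ b.eval n := by
    rcases hF : F.out A x0 with _ | z
    · rw [hF] at hy0
      simp [hy0]
    · rw [hF] at hy0
      have := hb A x0 z hF
      rw [hx0] at this
      simpa [hy0] using this
  obtain ⟨hd, hs⟩ := hgrow y0.length hy0l
  obtain ⟨mp, hmp⟩ := paths_local M y0 (M.p.eval y0.length) []
  set R := reg (code M) n with hR
  have hRl : ∀ u ∈ R, u.length = code M + 1 + n := fun u hu => length_of_mem_reg hu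
  let S0 : R → Option Bool := fun u => if (u : List Bool) ∈ Q then some false else none
  have hS0 : (dom S0).card ≤ 2 ^ l := by
    refine le_trans ?_ (hQc.trans hs)
    refine card_le_card_of_injOn Subtype.val (fun u hu => ?_) Subtype.val_injective.injOn
    simp only [dom, S0, coe_filter, mem_univ, true_and, Set.mem_ofPred_eq] at hu
    by_contra hcon
    exact hu (if_neg (fun hq => hcon (by exact_mod_cast hq)))
  have key : ∃ x, Con S0 x ∧ ((¬ ∃ v, 3 * M.paths (plug A R x) y0 (!v) (M.p.eval y0.length) [] <
      M.paths (plug A R x) y0 v (M.p.eval y0.length) []) ∨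
      ∃ v, (univ.filter (fun u => x u ≠ v)).card < 2 ^ n / 4 ∧
        ¬ 3 * M.paths (plug A R x) y0 (!v) (M.p.eval y0.length) [] <
          M.paths (plug A R x) y0 v (M.p.eval y0.length) []) := by
    by_contra hcon
    refine mach_lemma M A R y0 (d := M.p.eval y0.length) (S0 := S0)
      (L := 8000 * (M.p.eval y0.length + 1) * (M.p.eval y0.length + 3))
      (J := 2 * (M.p.eval y0.length + 1) * (M.p.eval y0.length + 5))
      (k := 2 * l + 4) (N0 := 2 ^ n / 4) (fun x hx => ?_) (fun v x hx hlt => ?_)
      (num_L _) (num_J _) (num_k hl hd) ?_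
    · by_contra h1
      exact hcon ⟨x, hx, Or.inl h1⟩
    · by_contra h1
      exact hcon ⟨x, hx, Or.inr ⟨v, hlt, h1⟩⟩
    · rw [hn]
      exact num_N hl hd hS0
  obtain ⟨x, hx, hx2⟩ := key
  obtain ⟨m', hm'⟩ : ∃ m', m' = max (m + 1) (max mp (max (code M + 1 + n) (qb.eval n))) :=
    ⟨_, rfl⟩
  have g1 : m + 1 ≤ m' := by omega
  have g2 : mp ≤ m' := by omega
  have g3 : code M + 1 + n ≤ m' := by omega
  have g4 : qb.eval n ≤ m' := by omega
  have hag : Agree m A (plug A R x) := fun u hu =>
    plug_not_mem fun hu' => by have := hRl u hu'; omega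
  have hpaths : ∀ A'', Agree m' (plug A R x) A'' → ∀ v,
      M.paths A'' y0 v (M.p.eval y0.length) [] =
        M.paths (plug A R x) y0 v (M.p.eval y0.length) [] := fun A'' hA'' v =>
    hmp (plug A R x) A'' (fun u hu => hA'' u (hu.trans g2)) v
  have hct : ∀ v, ct (plug A R x) (code M) n v = (univ.filter (fun u => x u = v)).card :=
    fun v => ct_plug x v
  have hadd := ct_add (plug A R x) (code M) n
  -- the two cases
  have hcases : Dead M (plug A R x) m' ∨ (Dens (plug A R x) (code M) n ∧
      ∃ v, (univ.filter (fun u => x u ≠ v)).card < 2 ^ n / 4 ∧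
        ¬ 3 * M.paths (plug A R x) y0 (!v) (M.p.eval y0.length) [] <
          M.paths (plug A R x) y0 v (M.p.eval y0.length) []) := by
    rcases hx2 with h1 | ⟨v, h1, h2⟩
    · left
      refine ⟨y0, fun A'' hA'' hprom => h1 ?_⟩
      obtain ⟨v, hv⟩ := hprom
      rw [hpaths A'' hA'', hpaths A'' hA''] at hv
      exact ⟨v, hv⟩
    · right
      refine ⟨?_, v, h1, h2⟩
      cases v with
      | false =>
        left
        have e : (univ.filter (fun u : R => x u ≠ false)) = univ.filter (fun u => x u = true) := by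
          ext u; simp
        rw [e, ← hct] at h1
        omega
      | true =>
        right
        have e : (univ.filter (fun u : R => x u ≠ true)) = univ.filter (fun u => x u = false) := by
          ext u; simp
        rw [e, ← hct] at h1
        omega
  refine ⟨plug A R x, m', by omega, hag, ⟨fun u hu => ?_, fun M' n' => ?_⟩,
    fun A'' hA'' hprom => ?_⟩
  · rw [plug_not_mem fun hu' => by have := hRl u hu'; omega]
    exact h.1 u (by omega)
  · by_cases hMn : M' = M ∧ n' = n
    · obtain ⟨rfl, rfl⟩ := hMn
      rcases hcases with h1 | ⟨h1, -⟩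
      · exact Or.inr h1
      · exact Or.inl h1
    · refine (h.2 M' n').imp (Dens.congr fun u hu => plug_not_mem fun hu' => hMn ?_)
        (fun hd => hd.mono hag (by omega))
      obtain ⟨h1, h2⟩ := reg_disj hu hu'
      exact ⟨code_inj h1, h2⟩
  · rcases hcases with ⟨y, hy⟩ | ⟨-, v, h1, h2⟩
    · exact absurd (hprom y) (hy A'' hA'')
    · refine ⟨x0, fun y hy hiff => ?_⟩
      have hout : F.out A'' x0 = F.out A x0 := by
        refine hQ A'' fun q hq => ?_
        rw [hA'' q ((hQl q hq).trans g4)]
        by_cases hqR : q ∈ R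
        · rw [plug_mem hqR, h.1 q (by have := hRl q hqR; omega)]
          exact hx ⟨q, hqR⟩ false (if_pos hq)
        · exact plug_not_mem hqR
      have hyy : y = y0 := by
        rw [hy0, ← hout, hy]
        rfl
      rw [hyy] at hiff
      have hct'' : ct A'' (code M) n true = ct (plug A R x) (code M) n true :=
        ct_congr (fun u hu => hA'' u (by have := hRl u hu; omega)) true
      have hL : x0 ∈ Lg A'' (code M) ↔ 3 * 2 ^ n < 4 * ct (plug A R x) (code M) n true := by
        unfold Lg
        rw [Set.mem_ofPred_eq, hx0, hct'']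
      obtain ⟨v', hv'⟩ := hprom y0
      rw [hpaths A'' hA'', hpaths A'' hA''] at hv'
      have hne : v' = !v := by
        by_contra hne
        have hvv : ∀ a b : Bool, ¬ (a = !b) → a = b := by decide
        have : v' = v := hvv v' v hne
        rw [this] at hv'
        exact h2 hv'
      have hr : M.rej A'' y0 = M.paths (plug A R x) y0 false (M.p.eval y0.length) [] :=
        hpaths A'' hA'' false
      have ha : M.acc A'' y0 = M.paths (plug A R x) y0 true (M.p.eval y0.length) [] :=
        hpaths A'' hA'' true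
      rw [hL, hr, ha] at hiff
      cases v with
      | false =>
        have e : (univ.filter (fun u : R => x u ≠ false)) = univ.filter (fun u => x u = true) := by
          ext u; simp
        rw [e, ← hct] at h1
        rw [hne] at hv'
        simp only [Bool.not_false, Bool.not_true] at hv'
        have := hiff.2 hv'
        omega
      | true =>
        have e : (univ.filter (fun u : R => x u ≠ true)) = univ.filter (fun u => x u = false) := by
          ext u; simp
        rw [e, ← hct] at h1
        rw [hne] at hv'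
        simp only [Bool.not_false, Bool.not_true] at hv'
        have := hiff.1 (by omega)
        omega

theorem inv_zero : Inv (fun _ => false) 0 := by
  refine ⟨fun _ _ => rfl, fun M n => Or.inl (Or.inl ?_)⟩
  simp [ct]

/-- the oracle -/
theorem exists_oracle : ∃ A : Oracle, (∀ M, (∀ y, Prom M A y) → ∀ n, Dens A (code M) n) ∧
    ∀ M F, Good M F A := by
  classical
  have : Nonempty (NMach × Alg) := by
    have hp : PolyTime (fun x => x) := polyTime_id
    exact ⟨⟨⟨_, hp, 0⟩, ⟨_, hp, 0⟩⟩⟩
  obtain ⟨e, he⟩ := exists_surjective_nat (NMach × Alg)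
  have hstage := fun (r : ℕ) (s : {s : Oracle × ℕ // Inv s.1 s.2}) =>
    stage (e r).1 (e r).2 s.2
  choose fA fm h1 h2 h3 h4 using hstage
  let st : ℕ → {s : Oracle × ℕ // Inv s.1 s.2} := fun r =>
    Nat.rec ⟨(fun _ => false, 0), inv_zero⟩ (fun r s => ⟨(fA r s, fm r s), h3 r s⟩) r
  have hst : ∀ r, (st (r + 1)).1 = (fA r (st r), fm r (st r)) := fun r => rfl
  have hm : ∀ r, (st r).1.2 < (st (r + 1)).1.2 := by
    intro r
    rw [hst]
    exact h1 r (st r)
  have hmono : StrictMono fun r => (st r).1.2 := strictMono_nat_of_lt_succ hm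
  have hge : ∀ r, r ≤ (st r).1.2 := hmono.id_le
  have hag : ∀ r k, Agree (st r).1.2 (st r).1.1 (st (r + k)).1.1 := by
    intro r k
    induction k with
    | zero => intro u _; rfl
    | succ k ih =>
      refine ih.trans (m' := (st (r + k)).1.2) ?_ (hmono.monotone (Nat.le_add_right r k))
      rw [← Nat.add_assoc, hst]
      exact h2 (r + k) (st (r + k))
  refine ⟨fun u => (st u.length).1.1 u, ?_⟩
  have hlim : ∀ r, Agree (st r).1.2 (st r).1.1 (fun u => (st u.length).1.1 u) := by
    intro r u hu
    rcases le_total r u.length with h | h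
    · obtain ⟨k, hk⟩ := Nat.exists_eq_add_of_le h
      have := hag r k u hu
      change (st u.length).1.1 u = _
      rw [hk]
      exact this
    · obtain ⟨k, hk⟩ := Nat.exists_eq_add_of_le h
      have := hag u.length k u (hge _)
      change (st u.length).1.1 u = _
      rw [hk]
      exact this.symm
  constructor
  · intro M hM n
    rcases (st (code M + 1 + n)).2.2 M n with h | ⟨y, hy⟩
    · refine Dens.congr (fun u hu => ?_) h
      refine hlim _ u ?_
      rw [length_of_mem_reg hu]
      exact hge _
    · exact absurd (hM y) (hy _ (hlim _))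
  · intro M F
    obtain ⟨r, hr⟩ := he (M, F)
    have := h4 r (st r) (fun u => (st u.length).1.1 u) (by
      have := hlim (r + 1)
      rw [hst] at this
      exact this)
    rw [hr] at this
    exact this

/-- relative to some oracle the class `BPP_path` has no complete set, even under reductions which
have access to the oracle -/
theorem no_complete : ∃ A : Oracle, (¬ ∃ C, IsComplete A C) ∧ ¬ ∃ C, IsCompleteRel A C := by
  obtain ⟨A, h1, h2⟩ := exists_oracle
  have key : ¬ ∃ C, IsCompleteRel A C := by
    rintro ⟨C, ⟨M, hM⟩, hC⟩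
    have hP : ∀ y, Prom M A y := by
      intro y
      by_cases hy : y ∈ C
      · refine ⟨true, ?_⟩
        have := (hM y).1 hy
        unfold NMach.total NMach.acc NMach.rej at this
        simp only [Bool.not_true]
        omega
      · refine ⟨false, ?_⟩
        have := (hM y).2 hy
        unfold NMach.total NMach.acc NMach.rej at this
        simp only [Bool.not_false]
        omega
    obtain ⟨f, ⟨F, hF⟩, hf⟩ := hC _ (bpp_Lg (h1 M hP))
    obtain ⟨x, hx⟩ := h2 M F hP
    refine hx (f x) (hF x) ?_
    rw [hf x]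
    have h3 := hM (f x)
    unfold NMach.total at h3
    constructor
    · intro h
      have := h3.1 h
      omega
    · intro h
      by_contra hcon
      have := h3.2 hcon
      omega
  refine ⟨A, ?_, key⟩
  rintro ⟨C, hC1, hC2⟩
  refine key ⟨C, hC1, fun L hL => ?_⟩
  obtain ⟨f, hf, hfx⟩ := hC2 L hL
  exact ⟨f, IsFP.of_poly (Pool.Agent.H622R2.poly_of_polyTime hf), hfx⟩

end Pool.Agent.J4H45.BP
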