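import Pool.Agent.J4H45.BP.Dom

/-!
# The query lemma
-/

namespace Pool.Agent.J4H45.BP

open Finset

section

variable {ι Θ : Type} [Fintype ι] [DecidableEq ι] [Fintype Θ]

/-- comparison of two distributions -/
theorem wt_ratio {π π' : Bool → ℝ} (hπ : Dist π) (hπ' : Dist π') {l : ℝ} (hl : 1 ≤ l)
    (h : ∀ b, π b ≤ l * π' b) {q : ℕ} (S : ι → Option Bool) {c : ι → Option Bool}
    (hc : (dom c).card ≤ q) :
    wt (marg (fun _ => 1) π S) c ≤ l ^ q * wt (marg (fun _ => 1) π' S) c := by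
  have h1 : wt (marg (fun _ => 1) π S) c ≤
      l ^ (dom c).card * wt (marg (fun _ => 1) π' S) c := by
    rw [wt, wt, ← prod_const, dom, prod_filter, ← prod_mul_distrib]
    refine prod_le_prod (fun i _ => fac_margv_nonneg zero_le_one hπ _ _) fun i _ => ?_
    simp only [marg]
    rcases hS : S i with _ | b' <;> rcases hc : c i with _ | b
    · simp [fac]
    · simpa [fac, margv] using h b
    · simp [fac]
    · simp only [fac, margv, ne_eq, reduceCtorEq, not_false_eq_true, if_true]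
      split_ifs
      · simpa using hl
      · simp
  refine h1.trans (mul_le_mul_of_nonneg_right (pow_le_pow_right₀ hl hc)
    (wt_nonneg (fun _ => zero_le_one) hπ' _ _))

theorem Zc_ratio {π π' : Bool → ℝ} (hπ : Dist π) (hπ' : Dist π') {l : ℝ} (hl : 1 ≤ l)
    (h : ∀ b, π b ≤ l * π' b) {q : ℕ} (S : ι → Option Bool) {C : Θ → ι → Option Bool}
    (hC : ∀ θ, (dom (C θ)).card ≤ q) (s : Finset Θ) :
    Zc 1 π C S s ≤ l ^ q * Zc 1 π' C S s := by
  unfold Zc Zs
  rw [mul_sum]
  exact sum_le_sum fun θ _ => wt_ratio hπ hπ' hl h S (hC θ)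

/-- the weight of a term inconsistent with a completion -/
theorem wt_le_of_not_con {π : Bool → ℝ} (hπ : Dist π) {S : ι → Option Bool} {v : Bool}
    {c : ι → Option Bool} (h : ¬ Con c (fun i => (S i).getD v)) :
    wt (marg (fun _ => 1) π S) c ≤ π (!v) := by
  unfold Con at h
  push Not at h
  obtain ⟨i, b, h1, h2⟩ := h
  rw [wt, ← mul_prod_erase univ (fun j => fac (marg (fun _ => 1) π S j) (c j)) (mem_univ i)]
  have h3 : fac (marg (fun _ => 1) π S i) (c i) ≤ π (!v) := by
    simp only [marg, h1]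
    rcases hS : S i with _ | b'
    · rw [hS] at h2
      simp only [Option.getD_none] at h2
      have : b = !v := by cases b <;> cases v <;> simp_all
      simp [fac, margv, this]
    · rw [hS] at h2
      simp only [Option.getD_some] at h2
      have : b ≠ b' := fun h => h2 h.symm
      simp only [fac, margv, this, if_false]
      exact (hπ.pos _).le
  have h4 : ∏ j ∈ univ.erase i, fac (marg (fun _ => 1) π S j) (c j) ≤ 1 :=
    prod_le_one (fun i _ => fac_margv_nonneg zero_le_one hπ _ _)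
      fun i _ => fac_margv_le_one zero_le_one (le_refl _) hπ _ _
  have h5 : 0 ≤ ∏ j ∈ univ.erase i, fac (marg (fun _ => 1) π S j) (c j) :=
    prod_nonneg fun i _ => fac_margv_nonneg zero_le_one hπ _ _
  have h6 := fac_margv_nonneg (z := 1) zero_le_one hπ (S i) (c i)
  have h7 : 0 ≤ fac (marg (fun _ => 1) π S i) (c i) := h6
  calc _ ≤ fac (marg (fun _ => 1) π S i) (c i) * 1 := mul_le_mul_of_nonneg_left h4 h7
    _ ≤ _ := by rw [mul_one]; exact h3

/-- the weight of a term consistent with a completion -/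
theorem wt_ge_of_con {π : Bool → ℝ} (hπ : Dist π) {S : ι → Option Bool} {v : Bool}
    {c : ι → Option Bool} (h : Con c (fun i => (S i).getD v)) {q : ℕ}
    (hc : (dom c).card ≤ q) :
    (π v) ^ q ≤ wt (marg (fun _ => 1) π S) c := by
  have h1 : (π v) ^ q ≤ (π v) ^ (dom c).card :=
    pow_le_pow_of_le_one (hπ.pos v).le (hπ.le_one v) hc
  refine h1.trans ?_
  rw [wt, ← prod_const, dom, prod_filter]
  refine prod_le_prod (fun i _ => ?_) fun i _ => ?_
  · split_ifs
    · exact (hπ.pos v).le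
    · exact zero_le_one
  · simp only [marg]
    rcases hc : c i with _ | b
    · simp [fac]
    · have h2 := h i b hc
      simp only [ne_eq, reduceCtorEq, not_false_eq_true, if_true]
      rcases hS : S i with _ | b'
      · simp only [hS, Option.getD_none] at h2
        simp [fac, margv, h2]
      · simp only [hS, Option.getD_some] at h2
        simp only [fac, margv, h2, if_true]
        exact hπ.le_one v

/-- dominance at the ends of the grid -/
theorem base_lemma {q : ℕ} {π : Bool → ℝ} (hπ : Dist π) {C : Θ → ι → Option Bool}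
    (hC : ∀ θ, (dom (C θ)).card ≤ q) {lab : Θ → Bool} {S0 S : ι → Option Bool} {v : Bool}
    {N0 : ℕ} (hS : Sub S0 S) (hcard : (dom S).card < N0)
    (hB : ∀ x, Con S0 x → (univ.filter (fun i => x i ≠ v)).card < N0 →
      3 * cnt C (K lab (!v)) x < cnt C (K lab v) x)
    (h1 : (Fintype.card Θ : ℝ) * π (!v) ≤ 1 / 12) (h2 : (q : ℝ) * π (!v) ≤ 1 / 12) :
    Zc 1 π C S (K lab (!v)) ≤ Zc 1 π C S univ / 3 := by
  classical
  set x : ι → Bool := fun i => (S i).getD v with hx
  have hxS : Con S x := by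
    intro i b hi
    simp [hx, hi]
  have hx0 : Con S0 x := Con.of_sub hS hxS
  have hxc : (univ.filter (fun i => x i ≠ v)).card < N0 := by
    refine lt_of_le_of_lt (card_le_card ?_) hcard
    intro i hi
    simp only [mem_filter, mem_univ, true_and, dom] at hi ⊢
    intro h3
    simp [hx, h3] at hi
  have hP := hB x hx0 hxc
  have hcr : 1 ≤ cnt C (K lab v) x := by omega
  have hcr' : (1 : ℝ) ≤ cnt C (K lab v) x := by exact_mod_cast hcr
  have hP' : (3 : ℝ) * cnt C (K lab (!v)) x ≤ cnt C (K lab v) x := by exact_mod_cast hP.le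
  -- upper bound
  have hpv : 0 < π (!v) := hπ.pos _
  have hup : Zc 1 π C S (K lab (!v)) ≤ cnt C (K lab (!v)) x + 1 / 12 := by
    have h3 : Zc 1 π C S (K lab (!v)) ≤
        ∑ θ ∈ K lab (!v), ((if Con (C θ) x then (1 : ℝ) else 0) + π (!v)) := by
      refine sum_le_sum fun θ _ => ?_
      split_ifs with h4
      · have := wt_le_one (ζ := fun _ => (1 : ℝ)) (fun _ => zero_le_one) (fun _ => le_refl _) hπ
          S (C θ)
        linarith
      · have := wt_le_of_not_con hπ h4
        linarith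
    rw [sum_add_distrib, sum_const, nsmul_eq_mul] at h3
    have h4 : ∑ θ ∈ K lab (!v), (if Con (C θ) x then (1 : ℝ) else 0) =
        cnt C (K lab (!v)) x := by
      rw [cnt_eq]
      exact sum_congr rfl fun θ _ => (ind_eq _ _).symm
    rw [h4] at h3
    have h5 : ((K lab (!v)).card : ℝ) ≤ Fintype.card Θ := by
      exact_mod_cast card_le_univ _
    nlinarith
  -- lower bound
  have hlow : 11 / 12 * (cnt C (K lab v) x : ℝ) ≤ Zc 1 π C S (K lab v) := by
    have h3 : (11 : ℝ) / 12 ≤ (π v) ^ q := by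
      have h4 : π v = 1 + -(π (!v)) := by
        have := hπ.sum
        cases v <;> simp <;> linarith
      have h5 := hπ.le_one (!v)
      have h6 := one_add_mul_le_pow (a := -(π (!v))) (by linarith) q
      rw [h4]
      linarith
    have h4 : ∑ θ ∈ (K lab v).filter (fun θ => Con (C θ) x), wt (marg (fun _ => 1) π S) (C θ) ≤
        Zc 1 π C S (K lab v) :=
      sum_le_sum_of_subset_of_nonneg (filter_subset _ _) fun _ _ _ =>
        wt_nonneg (fun _ => zero_le_one) hπ _ _
    refine le_trans ?_ h4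
    have h5 : ∑ θ ∈ (K lab v).filter (fun θ => Con (C θ) x), (11 / 12 : ℝ) =
        11 / 12 * (cnt C (K lab v) x : ℝ) := by
      rw [sum_const, nsmul_eq_mul, mul_comm]
      rfl
    rw [← h5]
    refine sum_le_sum fun θ hθ => ?_
    exact h3.trans (wt_ge_of_con hπ (mem_filter.1 hθ).2 (hC θ))
  have hsum : Zc 1 π C S (K lab (!v)) + Zc 1 π C S (K lab v) = Zc 1 π C S univ :=
    Zs_K _ _ lab v
  linarith

theorem card_dom_ext {S S' : ι → Option Bool} {b : ℕ} (h : Ext S S' b) :
    (dom S').card ≤ (dom S).card + b := by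
  have : dom S' ⊆ dom S ∪ nw S S' := by
    intro i hi
    simp only [dom, nw, mem_union, mem_filter, mem_univ, true_and] at hi ⊢
    by_cases h1 : S i = none
    · exact Or.inr ⟨h1, hi⟩
    · exact Or.inl h1
  exact (card_le_card this).trans ((card_union_le _ _).trans (Nat.add_le_add_left h.2 _))

theorem base_domi {q : ℕ} {π : Bool → ℝ} (hπ : Dist π) {C : Θ → ι → Option Bool}
    (hC : ∀ θ, (dom (C θ)).card ≤ q) {lab : Θ → Bool} {S0 : ι → Option Bool} {v : Bool}
    {N0 b : ℕ} (hcard : (dom S0).card + b < N0)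
    (hB : ∀ x, Con S0 x → (univ.filter (fun i => x i ≠ v)).card < N0 →
      3 * cnt C (K lab (!v)) x < cnt C (K lab v) x)
    (h1 : (Fintype.card Θ : ℝ) * π (!v) ≤ 1 / 12) (h2 : (q : ℝ) * π (!v) ≤ 1 / 12) :
    Domi π C lab S0 b v := fun _ hS' =>
  base_lemma hπ hC hS'.1 ((card_dom_ext hS').trans_lt hcard) hB h1 h2

/-- the grid of distributions -/
noncomputable def gr (l Λ : ℝ) (j : ℕ) (b : Bool) : ℝ :=
  (if b = true then l ^ j else Λ) / (l ^ j + Λ)

theorem gr_dist {l Λ : ℝ} (hl : 1 ≤ l) (hΛ : 1 ≤ Λ) (j : ℕ) : Dist (gr l Λ j) := by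
  have h1 : 0 < l ^ j := by positivity
  have h2 : 0 < Λ := by linarith
  constructor
  · intro b
    unfold gr
    split_ifs <;> positivity
  · simp only [gr, if_true, Bool.false_eq_true, if_false]
    field_simp

theorem gr_step {l Λ : ℝ} (hl : 1 ≤ l) (hΛ : 1 ≤ Λ) (j : ℕ) (b : Bool) :
    gr l Λ (j + 1) b ≤ l * gr l Λ j b ∧ gr l Λ j b ≤ l * gr l Λ (j + 1) b := by
  have h1 : 0 < l ^ j := by positivity
  have h2 : 0 < Λ := by linarith
  have h0 : 0 < l := by linarith
  have h3 : l ^ j ≤ l ^ (j + 1) := pow_le_pow_right₀ hl (Nat.le_succ j)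
  have h4 : 0 < l ^ (j + 1) := by positivity
  have e : l ^ (j + 1) = l * l ^ j := by ring
  unfold gr
  rw [mul_div_assoc', mul_div_assoc']
  cases b
  · simp only [Bool.false_eq_true, if_false]
    constructor
    · rw [div_le_div_iff₀ (by positivity) (by positivity)]
      nlinarith [mul_le_mul_of_nonneg_right hl h2.le, mul_pos h0 h4, mul_pos h0 h2,
        mul_le_mul_of_nonneg_right h3 h2.le, mul_pos h4 h2]
    · rw [div_le_div_iff₀ (by positivity) (by positivity), e]
      nlinarith [mul_le_mul_of_nonneg_right hl h2.le, mul_pos h2 h2]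
  · simp only [if_true]
    constructor
    · rw [div_le_div_iff₀ (by positivity) (by positivity), e]
      rw [e] at h3
      nlinarith [mul_pos h0 h1]
    · rw [div_le_div_iff₀ (by positivity) (by positivity)]
      have h5 : l ^ j ≤ l * l ^ (j + 1) := by nlinarith
      have h6 : l ^ j * l ^ (j + 1) ≤ l * l ^ (j + 1) * l ^ j := by nlinarith [mul_pos h1 h4]
      have h7 : l ^ j * Λ ≤ l * l ^ (j + 1) * Λ := mul_le_mul_of_nonneg_right h5 h2.le
      linarith

/-- binary search on the grid -/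
theorem search {q : ℕ} (hq : 1 ≤ q) {C : Θ → ι → Option Bool}
    (hC : ∀ θ, (dom (C θ)).card ≤ q) {lab : Θ → Bool} {S0 : ι → Option Bool} {L : ℕ}
    {l Λ : ℝ} (hl : 1 ≤ l) (hΛ : 1 ≤ Λ) (hl2 : l ^ (2 * q) < 4)
    (hP : ∀ x, Con S0 x → ∃ v, 3 * cnt C (K lab (!v)) x < cnt C (K lab v) x)
    (hL : 2 * (Fintype.card Θ : ℝ) < (1 + 1 / (8000 * (q : ℝ))) ^ L) :
    ∀ (k lo hi : ℕ) (S : ι → Option Bool), lo < hi → hi ≤ lo + 2 ^ k → Sub S0 S →
      Domi (gr l Λ lo) C lab S (q * (L + 1) ^ k) false →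
      Domi (gr l Λ hi) C lab S (q * (L + 1) ^ k) true → False := by
  intro k
  induction k with
  | zero =>
    intro lo hi S h1 h2 hS hlo hhi
    have e : hi = lo + 1 := by rw [pow_zero] at h2; omega
    subst e
    have h3 := hlo S (Ext.refl _ _)
    have h4 := hhi S (Ext.refl _ _)
    simp only [Bool.not_false, Bool.not_true] at h3 h4
    have h5 : Zc 1 (gr l Λ lo) C S (K lab true) + Zc 1 (gr l Λ lo) C S (K lab false) =
      Zc 1 (gr l Λ lo) C S univ := Zs_K _ _ lab false
    have h6 : Zc 1 (gr l Λ (lo + 1)) C S (K lab true) +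
      Zc 1 (gr l Λ (lo + 1)) C S (K lab false) = Zc 1 (gr l Λ (lo + 1)) C S univ :=
      Zs_K _ _ lab false
    have hd := gr_dist hl hΛ lo
    have hd' := gr_dist hl hΛ (lo + 1)
    have h7 : Zc 1 (gr l Λ lo) C S (K lab false) ≤
        l ^ q * Zc 1 (gr l Λ (lo + 1)) C S (K lab false) :=
      Zc_ratio hd hd' hl (fun b => (gr_step hl hΛ lo b).2) S hC _
    have h8 : Zc 1 (gr l Λ (lo + 1)) C S (K lab true) ≤
        l ^ q * Zc 1 (gr l Λ lo) C S (K lab true) :=
      Zc_ratio hd' hd hl (fun b => (gr_step hl hΛ lo b).1) S hC _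
    have h9 : 1 ≤ Zc 1 (gr l Λ lo) C S univ := Zc_univ_ge_one hd fun x hx => by
      obtain ⟨v, hv⟩ := hP x (Con.of_sub hS hx)
      have : cnt C (K lab v) x ≤ cnt C (univ : Finset Θ) x :=
        card_le_card (filter_subset_filter _ (subset_univ _))
      omega
    have hlq : 0 < l ^ q := by positivity
    have e2 : l ^ (2 * q) = l ^ q * l ^ q := by rw [two_mul, pow_add]
    rw [e2] at hl2
    generalize Zc 1 (gr l Λ lo) C S (K lab true) = a at *
    generalize Zc 1 (gr l Λ lo) C S (K lab false) = r at *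
    generalize Zc 1 (gr l Λ (lo + 1)) C S (K lab true) = a' at *
    generalize Zc 1 (gr l Λ (lo + 1)) C S (K lab false) = r' at *
    generalize l ^ q = m at *
    have g1 : a ≤ r / 2 := by linarith
    have g2 : r' ≤ a' / 2 := by linarith
    have g3 : 0 < r := by linarith
    have g4 : r ≤ m * (a' / 2) := h7.trans (mul_le_mul_of_nonneg_left g2 hlq.le)
    have g5 : a' ≤ m * (r / 2) := h8.trans (mul_le_mul_of_nonneg_left g1 hlq.le)
    have g6 : m * (a' / 2) ≤ m * (m * (r / 2) / 2) :=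
      mul_le_mul_of_nonneg_left (by linarith) hlq.le
    have g7 : m * (m * (r / 2) / 2) = m * m * r / 4 := by ring
    nlinarith
  | succ k ih =>
    intro lo hi S h1 h2 hS hlo hhi
    have hb : q * (L + 1) ^ k ≤ q * (L + 1) ^ (k + 1) :=
      Nat.mul_le_mul_left q (Nat.pow_le_pow_right (Nat.succ_pos L) (Nat.le_succ k))
    by_cases h3 : hi ≤ lo + 2 ^ k
    · exact ih lo hi S h1 h3 hS (hlo.mono hb) (hhi.mono hb)
    · push Not at h3
      have hqb : q ≤ q * (L + 1) ^ k := Nat.le_mul_of_pos_right q (by positivity)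
      obtain ⟨S', h4, v, h5⟩ := exists_domi hq (gr_dist hl hΛ (lo + 2 ^ k)) hC hqb
        (fun x hx => hP x (Con.of_sub hS hx)) hL
      have e : q * (L + 1) ^ (k + 1) = q * (L + 1) ^ k * L + q * (L + 1) ^ k := by ring
      rw [e] at hlo hhi
      have h2' : hi ≤ lo + 2 ^ k + 2 ^ k := by
        rw [pow_succ] at h2
        omega
      have h2k : 0 < 2 ^ k := by positivity
      cases v with
      | false => exact ih (lo + 2 ^ k) hi S' h3 h2' (hS.trans h4.1) h5 (hhi.ext h4)
      | true =>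
        exact ih lo (lo + 2 ^ k) S' (by omega) (le_refl _) (hS.trans h4.1) (hlo.ext h4) h5

/-- the query lemma -/
theorem query_lemma {q : ℕ} (hq : 1 ≤ q) {C : Θ → ι → Option Bool}
    (hC : ∀ θ, (dom (C θ)).card ≤ q) {lab : Θ → Bool} {S0 : ι → Option Bool} {L J k N0 : ℕ}
    (hP : ∀ x, Con S0 x → ∃ v, 3 * cnt C (K lab (!v)) x < cnt C (K lab v) x)
    (hB : ∀ v x, Con S0 x → (univ.filter (fun i => x i ≠ v)).card < N0 →
      3 * cnt C (K lab (!v)) x < cnt C (K lab v) x)
    (hL : 2 * (Fintype.card Θ : ℝ) < (1 + 1 / (8000 * (q : ℝ))) ^ L)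
    (hJ : 12 * (Fintype.card Θ : ℝ) ≤ (1 + 1 / (2 * (q : ℝ))) ^ J)
    (hJ2 : 12 * (q : ℝ) ≤ (1 + 1 / (2 * (q : ℝ))) ^ J)
    (hk : 2 * J ≤ 2 ^ k) (hN : (dom S0).card + q * (L + 1) ^ k < N0) : False := by
  set l : ℝ := 1 + 1 / (2 * (q : ℝ)) with hl
  have hq1 : (1 : ℝ) ≤ q := by exact_mod_cast hq
  have hl1 : 1 ≤ l := by
    have : (0 : ℝ) ≤ 1 / (2 * (q : ℝ)) := by positivity
    linarith
  have hΛ1 : 1 ≤ l ^ J := one_le_pow₀ hl1
  have hJ0 : 0 < J := by
    rcases Nat.eq_zero_or_pos J with h | h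
    · rw [h, pow_zero] at hJ2
      linarith
    · exact h
  have hl2 : l ^ (2 * q) < 4 := by
    have h1 : l ≤ Real.exp (1 / (2 * (q : ℝ))) := by
      have := Real.add_one_le_exp (1 / (2 * (q : ℝ)))
      linarith
    have h2 : l ^ (2 * q) ≤ Real.exp (1 / (2 * (q : ℝ))) ^ (2 * q) :=
      pow_le_pow_left₀ (by linarith) h1 _
    rw [← Real.exp_nat_mul] at h2
    have e : ((2 * q : ℕ) : ℝ) * (1 / (2 * (q : ℝ))) = 1 := by
      push_cast
      field_simp
    rw [e] at h2
    have := Real.exp_one_lt_d9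
    linarith
  have hend : gr l (l ^ J) 0 true ≤ 1 / l ^ J ∧ gr l (l ^ J) (2 * J) false ≤ 1 / l ^ J := by
    have h0 : 0 < l ^ J := by positivity
    constructor
    · unfold gr
      rw [if_pos rfl, pow_zero]
      exact one_div_le_one_div_of_le h0 (by linarith)
    · unfold gr
      rw [if_neg (by decide), two_mul, pow_add]
      rw [div_le_div_iff₀ (by positivity) h0]
      nlinarith
  have hbd : ∀ t : ℝ, t ≤ 1 / l ^ J → 0 ≤ t →
      (Fintype.card Θ : ℝ) * t ≤ 1 / 12 ∧ (q : ℝ) * t ≤ 1 / 12 := by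
    intro t ht ht0
    have h0 : 0 < l ^ J := by positivity
    have h1 : t * l ^ J ≤ 1 := by
      rwa [le_div_iff₀ h0] at ht
    constructor <;> nlinarith
  have hlo : Domi (gr l (l ^ J) 0) C lab S0 (q * (L + 1) ^ k) false := by
    have h1 := hbd _ hend.1 ((gr_dist hl1 hΛ1 0).pos _).le
    exact base_domi (gr_dist hl1 hΛ1 0) hC hN (hB false) h1.1 h1.2
  have hhi : Domi (gr l (l ^ J) (2 * J)) C lab S0 (q * (L + 1) ^ k) true := by
    have h1 := hbd _ hend.2 ((gr_dist hl1 hΛ1 (2 * J)).pos _).le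
    exact base_domi (gr_dist hl1 hΛ1 (2 * J)) hC hN (hB true) h1.1 h1.2
  exact search hq hC hl1 hΛ1 hl2 hP hL k 0 (2 * J) S0 (by omega) (by omega) (Sub.refl _) hlo hhi

end

end Pool.Agent.J4H45.BP
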