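import Pool.Agent.J4H45.BP.Defs
import Pool.Agent.J4H45.BP.Search

/-!
# The terms of a machine
-/

namespace Pool.Agent.J4H45.BP

open Finset Pool.Agent.NPC Pool.Agent.H628R3.RO

/-- the oracle `A`, changed to `x` on the set `R` -/
def plug (A : Oracle) (R : Finset (List Bool)) (x : R → Bool) : Oracle := fun u =>
  if h : u ∈ R then x ⟨u, h⟩ else A u

/-- the terms of the paths of a machine -/
def terms (M : NMach) (A : Oracle) (R : Finset (List Bool)) (y : List Bool) :
    ℕ → List Bool → (R → Option Bool) → List ((R → Option Bool) × Bool)
  | 0, _, c => [(c, false)]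
  | n + 1, a, c =>
    match M.D (pairBits y a) with
    | [] => [(c, false)]
    | false :: u =>
      if h : u ∈ R then
        match c ⟨u, h⟩ with
        | some b => terms M A R y n (a ++ [b]) c
        | none => terms M A R y n (a ++ [false]) (Function.update c ⟨u, h⟩ (some false)) ++
            terms M A R y n (a ++ [true]) (Function.update c ⟨u, h⟩ (some true))
      else terms M A R y n (a ++ [A u]) c
    | [true] => terms M A R y n (a ++ [false]) c ++ terms M A R y n (a ++ [true]) c
    | true :: b :: _ => [(c, b)]

theorem terms_length (M : NMach) (A : Oracle) (R : Finset (List Bool)) (y : List Bool) :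
    ∀ (n : ℕ) (a : List Bool) (c : R → Option Bool), (terms M A R y n a c).length ≤ 2 ^ n := by
  intro n
  induction n with
  | zero => intro a c; simp [terms]
  | succ n ih =>
    intro a c
    have h2 : 2 ^ (n + 1) = 2 ^ n + 2 ^ n := by rw [pow_succ]; omega
    have h1 : 1 ≤ 2 ^ n := Nat.one_le_two_pow
    unfold terms
    split
    · simp only [List.length_singleton]; omega
    · split_ifs with h
      · split
        · exact (ih _ _).trans (by omega)
        · rw [List.length_append]
          have h3 := ih (a ++ [false]) (Function.update c ⟨_, h⟩ (some false))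
          have h4 := ih (a ++ [true]) (Function.update c ⟨_, h⟩ (some true))
          omega
      · exact (ih _ _).trans (by omega)
    · rw [List.length_append]
      have h3 := ih (a ++ [false]) c
      have h4 := ih (a ++ [true]) c
      omega
    · simp only [List.length_singleton]; omega

theorem dom_update {ι : Type} [Fintype ι] [DecidableEq ι] (c : ι → Option Bool) (i : ι)
    (b : Bool) : (dom (Function.update c i (some b))).card ≤ (dom c).card + 1 := by
  have : dom (Function.update c i (some b)) ⊆ insert i (dom c) := by
    intro j hj
    simp only [dom, mem_insert, mem_filter, mem_univ, true_and] at hj ⊢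
    by_cases h : j = i
    · exact Or.inl h
    · rw [Function.update_of_ne h] at hj
      exact Or.inr hj
  exact (card_le_card this).trans (card_insert_le _ _)

theorem terms_width (M : NMach) (A : Oracle) (R : Finset (List Bool)) (y : List Bool) :
    ∀ (n : ℕ) (a : List Bool) (c : R → Option Bool), ∀ t ∈ terms M A R y n a c,
      (dom t.1).card ≤ (dom c).card + n := by
  intro n
  induction n with
  | zero =>
    intro a c t ht
    simp only [terms, List.mem_singleton] at ht
    rw [ht]; simp
  | succ n ih =>
    intro a c t ht
    unfold terms at ht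
    split at ht
    · rw [List.mem_singleton] at ht
      rw [ht]; simp
    · split_ifs at ht with h
      · split at ht
        · exact (ih _ _ _ ht).trans (by omega)
        · rw [List.mem_append] at ht
          rcases ht with ht | ht
          · have h1 := ih _ _ _ ht
            have h2 := dom_update c ⟨_, h⟩ false
            omega
          · have h1 := ih _ _ _ ht
            have h2 := dom_update c ⟨_, h⟩ true
            omega
      · exact (ih _ _ _ ht).trans (by omega)
    · rw [List.mem_append] at ht
      rcases ht with ht | ht
      · exact (ih _ _ _ ht).trans (by omega)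
      · exact (ih _ _ _ ht).trans (by omega)
    · rw [List.mem_singleton] at ht
      rw [ht]; simp

theorem con_update {ι : Type} [Fintype ι] [DecidableEq ι] {c : ι → Option Bool} {i : ι}
    (hc : c i = none) (b : Bool) (x : ι → Bool) :
    Con (Function.update c i (some b)) x ↔ Con c x ∧ x i = b := by
  constructor
  · intro h
    refine ⟨fun j b' hj => ?_, h i b (by simp)⟩
    have : j ≠ i := by
      rintro rfl
      rw [hc] at hj
      exact absurd hj (by simp)
    exact h j b' (by rw [Function.update_of_ne this, hj])
  · rintro ⟨h1, h2⟩ j b' hj
    by_cases h : j = i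
    · subst h
      rw [Function.update_self, Option.some.injEq] at hj
      rw [← hj]; exact h2
    · rw [Function.update_of_ne h] at hj
      exact h1 j b' hj

/-- the number of paths is the number of consistent terms -/
theorem terms_count (M : NMach) (A : Oracle) (R : Finset (List Bool)) (y : List Bool) (v : Bool)
    (x : R → Bool) : ∀ (n : ℕ) (a : List Bool) (c : R → Option Bool),
      ((terms M A R y n a c).map (fun t => if t.2 = v ∧ Con t.1 x then 1 else 0)).sum =
        if Con c x then M.paths (plug A R x) y v n a else 0 := by
  intro n
  induction n with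
  | zero =>
    intro a c
    simp only [terms, List.map_cons, List.map_nil, List.sum_cons, List.sum_nil, add_zero,
      NMach.paths]
    by_cases h1 : Con c x <;> by_cases h2 : v = false <;> simp [h1, h2]
  | succ n ih =>
    intro a c
    unfold terms NMach.paths
    rcases hD : M.D (pairBits y a) with _ | ⟨b0, u⟩
    · simp only [List.map_cons, List.map_nil, List.sum_cons, List.sum_nil, add_zero]
      by_cases h1 : Con c x <;> by_cases h2 : v = false <;> simp [h1, h2]
    · cases b0 with
      | false =>
        simp only
        by_cases h : u ∈ R
        · have hpl : plug A R x u = x ⟨u, h⟩ := by simp [plug, h]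
          rw [dif_pos h, hpl]
          rcases hc : c ⟨u, h⟩ with _ | b
          · simp only [List.map_append, List.sum_append, ih, con_update hc]
            by_cases h1 : Con c x
            · cases hx : x ⟨u, h⟩ <;> simp [h1]
            · simp [h1]
          · simp only [ih]
            by_cases h1 : Con c x
            · rw [if_pos h1, if_pos h1, h1 _ _ hc]
            · simp [h1]
        · have hpl : plug A R x u = A u := by simp [plug, h]
          rw [dif_neg h, hpl, ih]
      | true =>
        rcases u with _ | ⟨b, z⟩
        · simp only [List.map_append, List.sum_append, ih]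
          by_cases h1 : Con c x <;> simp [h1]
        · simp only [List.map_cons, List.map_nil, List.sum_cons, List.sum_nil, add_zero]
          by_cases h1 : Con c x <;> simp [h1]

/-- the query lemma for machines -/
theorem mach_lemma (M : NMach) (A : Oracle) (R : Finset (List Bool)) (y : List Bool)
    {d : ℕ} {S0 : R → Option Bool} {L J k N0 : ℕ}
    (hP : ∀ x, Con S0 x → ∃ v, 3 * M.paths (plug A R x) y (!v) d [] <
      M.paths (plug A R x) y v d [])
    (hB : ∀ v x, Con S0 x → (univ.filter (fun i => x i ≠ v)).card < N0 →
      3 * M.paths (plug A R x) y (!v) d [] < M.paths (plug A R x) y v d [])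
    (hL : 2 * (2 : ℝ) ^ (d + 1) < (1 + 1 / (8000 * ((d + 1 : ℕ) : ℝ))) ^ L)
    (hJ : 12 * (2 : ℝ) ^ (d + 1) ≤ (1 + 1 / (2 * ((d + 1 : ℕ) : ℝ))) ^ J)
    (hk : 2 * J ≤ 2 ^ k) (hN : (dom S0).card + (d + 1) * (L + 1) ^ k < N0) : False := by
  set T := terms M A R y d [] (fun _ => none) with hT
  have hlen : T.length ≤ 2 ^ d := terms_length M A R y d _ _
  have hcnt : ∀ v x, cnt (fun θ : Fin T.length => (T[θ.1]).1)
      (K (fun θ : Fin T.length => (T[θ.1]).2) v) x = M.paths (plug A R x) y v d [] := by
    intro v x
    have h1 := terms_count M A R y v x d [] (fun _ => none)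
    rw [← hT, if_pos (by intro i b h; simp at h)] at h1
    rw [← h1, cnt, K, filter_filter, card_filter]
    exact (Fin.sum_univ_fun_getElem T (fun t => if t.2 = v ∧ Con t.1 x then 1 else 0))
  have hcard : (Fintype.card (Fin T.length) : ℝ) ≤ 2 ^ (d + 1) := by
    rw [Fintype.card_fin]
    have : T.length ≤ 2 ^ (d + 1) := hlen.trans (Nat.pow_le_pow_right (by norm_num) (by omega))
    exact_mod_cast this
  refine query_lemma (q := d + 1) (Θ := Fin T.length) (C := fun θ => (T[θ.1]).1)
    (lab := fun θ => (T[θ.1]).2) (S0 := S0) (L := L) (J := J) (k := k) (N0 := N0)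
    (by omega) (fun θ => ?_) ?_ ?_ ?_ ?_ ?_ hk hN
  · have h1 := terms_width M A R y d [] (fun _ => none) T[θ.1] (List.getElem_mem _)
    have h2 : (dom (fun _ : R => (none : Option Bool))).card = 0 := by simp [dom]
    omega
  · intro x hx
    obtain ⟨v, hv⟩ := hP x hx
    exact ⟨v, by rw [hcnt, hcnt]; exact hv⟩
  · intro v x hx h
    rw [hcnt, hcnt]
    exact hB v x hx h
  · linarith
  · linarith
  · refine le_trans ?_ hJ
    have : ((d + 1 : ℕ) : ℝ) ≤ 2 ^ (d + 1) := by
      exact_mod_cast (Nat.lt_two_pow_self (n := d + 1)).le
    linarith

end Pool.Agent.J4H45.BP
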