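import Pool.Agent.J4H45.BP.Fam

/-!
# Stable partial assignments and second moments
-/

namespace Pool.Agent.J4H45.BP

open Finset

section

variable {ι Θ : Type} [Fintype ι] [DecidableEq ι] [Fintype Θ]

/-- the unconditioned total weight under a discount -/
abbrev Zc (z : ℝ) (π : Bool → ℝ) (C : Θ → ι → Option Bool) (S : ι → Option Bool)
    (s : Finset Θ) : ℝ := Zs (marg (fun _ => z) π S) C s

/-- extensions by at most `b` coordinates hardly raise the total weight -/
def Stable (z : ℝ) (π : Bool → ℝ) (C : Θ → ι → Option Bool) (S : ι → Option Bool) (b : ℕ)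
    (γ : ℝ) : Prop :=
  ∀ S', Ext S S' b → Zc z π C S' univ ≤ (1 + γ) * Zc z π C S univ

theorem exists_stable {z : ℝ} {π : Bool → ℝ} (hz : 0 ≤ z) (hz1 : z ≤ 1) (hπ : Dist π)
    {C : Θ → ι → Option Bool} {S : ι → Option Bool} {γ : ℝ} (hγ : 0 ≤ γ) {L : ℕ} (b : ℕ)
    (hL : (Fintype.card Θ : ℝ) < (1 + γ) ^ L * Zc z π C S univ) :
    ∃ S', Ext S S' (b * L) ∧ Stable z π C S' b γ := by
  have key : ∀ k : ℕ, (∃ S', Ext S S' (b * k) ∧ Stable z π C S' b γ) ∨
      ∃ S', Ext S S' (b * k) ∧ (1 + γ) ^ k * Zc z π C S univ ≤ Zc z π C S' univ := by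
    intro k
    induction k with
    | zero => exact Or.inr ⟨S, Ext.refl _ _, by simp⟩
    | succ k ih =>
      rcases ih with ⟨S', h1, h2⟩ | ⟨S', h1, h2⟩
      · exact Or.inl ⟨S', h1.mono (Nat.mul_le_mul_left b (Nat.le_succ k)), h2⟩
      · by_cases h3 : Stable z π C S' b γ
        · exact Or.inl ⟨S', h1.mono (Nat.mul_le_mul_left b (Nat.le_succ k)), h3⟩
        · unfold Stable at h3
          push Not at h3
          obtain ⟨S'', h4, h5⟩ := h3
          refine Or.inr ⟨S'', (h1.trans h4).mono (by rw [Nat.mul_succ]), ?_⟩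
          refine le_trans ?_ h5.le
          rw [pow_succ]
          have : (0 : ℝ) ≤ 1 + γ := by linarith
          have := mul_le_mul_of_nonneg_left h2 this
          linarith
  rcases key L with h | ⟨S', h1, h2⟩
  · exact h
  · exfalso
    have h3 : Zc z π C S' univ ≤ (Finset.univ : Finset Θ).card :=
      Zs_le_card (fun _ => hz) (fun _ => hz1) hπ _ _ _
    rw [Finset.card_univ] at h3
    linarith

theorem Zc_discount {z : ℝ} {π : Bool → ℝ} (hz : 0 < z) (hz1 : z ≤ 1) (h : Dist π) {q : ℕ}
    (hq : 1 / 2 ≤ z ^ q) (S : ι → Option Bool) {C : Θ → ι → Option Bool}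
    (hC : ∀ θ, (dom (C θ)).card ≤ q) (s : Finset Θ) :
    Zc 1 π C S s ≤ 2 * Zc z π C S s := by
  unfold Zc Zs
  rw [mul_sum]
  exact sum_le_sum fun θ _ => wt_discount hz hz1 h hq S (hC θ)

theorem Zc_discount_le {z : ℝ} {π : Bool → ℝ} (hz : 0 < z) (hz1 : z ≤ 1) (h : Dist π)
    (S : ι → Option Bool) (C : Θ → ι → Option Bool) (s : Finset Θ) :
    Zc z π C S s ≤ Zc 1 π C S s :=
  sum_le_sum fun _ _ => wt_discount_le hz hz1 h S _

/-- the discount -/
noncomputable def disc (q : ℕ) : ℝ := 1 - 1 / (2 * q)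

theorem disc_pos {q : ℕ} (hq : 1 ≤ q) : 0 < disc q := by
  have h1 : (1 : ℝ) ≤ q := by exact_mod_cast hq
  unfold disc
  have : 1 / (2 * (q : ℝ)) ≤ 1 / 2 := by
    apply one_div_le_one_div_of_le (by norm_num); linarith
  linarith

theorem disc_le_one (q : ℕ) : disc q ≤ 1 := by
  unfold disc
  have : (0 : ℝ) ≤ 1 / (2 * q) := by positivity
  linarith

theorem disc_pow {q : ℕ} (hq : 1 ≤ q) : 1 / 2 ≤ disc q ^ q := by
  have h1 : (1 : ℝ) ≤ q := by exact_mod_cast hq
  have h2 : (1 : ℝ) / (2 * q) ≤ 1 / 2 := by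
    apply one_div_le_one_div_of_le (by norm_num); linarith
  have h := one_add_mul_le_pow (a := -(1 / (2 * (q : ℝ)))) (by linarith) q
  have e : (1 : ℝ) + q * -(1 / (2 * q)) = 1 / 2 := by
    field_simp
    ring
  rw [e] at h
  have e2 : disc q = 1 + -(1 / (2 * (q : ℝ))) := by unfold disc; ring
  rw [e2]
  exact h

theorem disc_inv {q : ℕ} (hq : 1 ≤ q) : 1 / (2 * (q : ℝ)) ≤ 1 / disc q - 1 := by
  have h0 := disc_pos hq
  have h1 : (1 : ℝ) ≤ q := by exact_mod_cast hq
  have h2 : 0 ≤ 1 / (2 * (q : ℝ)) := by positivity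
  rw [le_sub_iff_add_le, le_div_iff₀ h0]
  unfold disc
  nlinarith

/-- in a stable situation few terms read the new coordinates -/
theorem quiet_of_stable {q : ℕ} (hq : 1 ≤ q) {π : Bool → ℝ} (hπ : Dist π)
    {C : Θ → ι → Option Bool} (hC : ∀ θ, (dom (C θ)).card ≤ q) {S : ι → Option Bool} {b : ℕ}
    (h : Stable (disc q) π C S b (1 / (8000 * q))) {S' : ι → Option Bool} (hS' : Ext S S' b) :
    Zc 1 π C S (touch C (nw S S')) ≤ Zc 1 π C S univ / 1000 ∧
      Zc 1 π C S' (touch C (nw S S')) ≤ Zc 1 π C S univ / 1000 := by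
  classical
  have h0 := disc_pos hq
  have h01 := disc_le_one q
  have hp := disc_pow hq
  have hinv := disc_inv hq
  have hq1 : (1 : ℝ) ≤ q := by exact_mod_cast hq
  set D := nw S S' with hD
  have hDn : ∀ i ∈ D, S i = none := by
    intro i hi
    simp only [hD, nw, mem_filter, mem_univ, true_and] at hi
    exact hi.1
  obtain ⟨S1, hS1, hle⟩ := greedy (z := disc q) hπ C univ D S hDn
  have h1 := Zs_undisc h0 h01 hπ hDn C
  have h2 := h S1 (hS1.mono hS'.2)
  have h3 := h S' hS'
  have hZ0 : 0 ≤ Zc (disc q) π C S univ := Zs_nonneg (fun _ => h0.le) hπ _ _ _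
  have hT0 : 0 ≤ Zc (disc q) π C S (touch C D) := Zs_nonneg (fun _ => h0.le) hπ _ _ _
  -- the touched weight
  have h4 : 1 / (2 * (q : ℝ)) * Zc (disc q) π C S (touch C D) ≤
      1 / (8000 * q) * Zc (disc q) π C S univ := by
    have h5 := mul_le_mul_of_nonneg_right hinv hT0
    unfold Zc at *
    linarith
  have h5 : Zc (disc q) π C S (touch C D) ≤ Zc (disc q) π C S univ / 4000 := by
    have h6 := mul_le_mul_of_nonneg_left h4 (by positivity : (0 : ℝ) ≤ 2 * q)
    have e1 : 2 * (q : ℝ) * (1 / (2 * q) * Zc (disc q) π C S (touch C D)) =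
        Zc (disc q) π C S (touch C D) := by field_simp
    have e2 : 2 * (q : ℝ) * (1 / (8000 * q) * Zc (disc q) π C S univ) =
        Zc (disc q) π C S univ / 4000 := by field_simp; ring
    rwa [e1, e2] at h6
  have h6 : 1 / (8000 * (q : ℝ)) ≤ 1 / 8000 := by
    apply one_div_le_one_div_of_le (by norm_num); linarith
  have h7 : Zc (disc q) π C S' (touch C D) ≤ 3 / 8000 * Zc (disc q) π C S univ := by
    have h8 := Zs_ext_eq (ζ := fun _ => disc q) (π := π) hS'.1 C univ
    rw [univ_inter, ← hD] at h8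
    have h9 := mul_le_mul_of_nonneg_right h6 hZ0
    unfold Zc at *
    linarith
  have h8 := Zc_discount_le h0 h01 hπ S C univ
  have h9 := Zc_discount h0 h01 hπ hp S hC (touch C D)
  have h10 := Zc_discount h0 h01 hπ hp S' hC (touch C D)
  constructor <;> linarith

/-! ### expectations -/

/-- consistency with a value -/
def ci (o : Option Bool) (b : Bool) : ℝ :=
  match o with
  | none => 1
  | some b' => if b = b' then 1 else 0

/-- the indicator function of the consistency of a term with a full assignment -/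
def ind (c : ι → Option Bool) (x : ι → Bool) : ℝ := ∏ i, ci (c i) (x i)

/-- the probability of the full assignment -/
def mu (π : Bool → ℝ) (S : ι → Option Bool) (x : ι → Bool) : ℝ :=
  ∏ i, marg (fun _ => 1) π S i (x i)

/-- overriding -/
def ovr (S c : ι → Option Bool) : ι → Option Bool := fun i =>
  match c i with
  | none => S i
  | some b => some b

theorem sum_pi (f : ι → Bool → ℝ) : ∑ x : ι → Bool, ∏ i, f i (x i) = ∏ i, (f i true + f i false) := by
  have h := Finset.prod_univ_sum (fun _ : ι => (univ : Finset Bool)) f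
  rw [Fintype.piFinset_univ] at h
  rw [← h]
  exact prod_congr rfl fun i _ => by simp

theorem E_ind {π : Bool → ℝ} (hπ : Dist π) (S c : ι → Option Bool) :
    ∑ x, mu π S x * ind c x = wt (marg (fun _ => 1) π S) c := by
  have hs := hπ.sum
  simp only [mu, ind, ← prod_mul_distrib]
  rw [sum_pi (fun i b => marg (fun _ => 1) π S i b * ci (c i) b)]
  refine prod_congr rfl fun i _ => ?_
  simp only [marg]
  rcases hS : S i with _ | b' <;> rcases hc : c i with _ | b
  · simp [margv, ci, fac, hs]
  · cases b <;> simp [margv, ci, fac]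
  · cases b' <;> simp [margv, ci, fac]
  · cases b <;> cases b' <;> simp [margv, ci, fac]

theorem E_ind2 {π : Bool → ℝ} (hπ : Dist π) (S c d : ι → Option Bool) :
    ∑ x, mu π S x * (ind c x * ind d x) =
      wt (marg (fun _ => 1) π S) c * wt (marg (fun _ => 1) π (ovr S c)) d := by
  have hs := hπ.sum
  simp only [mu, ind, ← prod_mul_distrib, wt]
  rw [sum_pi (fun i b => marg (fun _ => 1) π S i b * (ci (c i) b * ci (d i) b))]
  refine prod_congr rfl fun i _ => ?_
  simp only [marg, ovr]
  rcases hS : S i with _ | b' <;> rcases hc : c i with _ | b <;> rcases hd : d i with _ | b''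
  · simp [margv, ci, fac, hs]
  · cases b'' <;> simp [margv, ci, fac]
  · cases b <;> simp [margv, ci, fac]
  · cases b <;> cases b'' <;> simp [margv, ci, fac]
  · cases b' <;> simp [margv, ci, fac]
  · cases b' <;> cases b'' <;> simp [margv, ci, fac]
  · cases b <;> cases b' <;> simp [margv, ci, fac]
  · cases b <;> cases b' <;> cases b'' <;> simp [margv, ci, fac]

theorem sum_mu {π : Bool → ℝ} (hπ : Dist π) (S : ι → Option Bool) : ∑ x, mu π S x = 1 := by
  have h := E_ind hπ S (fun _ => none)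
  simpa [ind, ci, wt, fac] using h

theorem mu_nonneg {π : Bool → ℝ} (hπ : Dist π) (S : ι → Option Bool) (x : ι → Bool) :
    0 ≤ mu π S x := by
  refine prod_nonneg fun i _ => ?_
  have := fac_margv_nonneg (z := 1) zero_le_one hπ (S i) (some (x i))
  exact this

/-- consistency of a term with a full assignment -/
def Con (c : ι → Option Bool) (x : ι → Bool) : Prop := ∀ i b, c i = some b → x i = b

instance (c : ι → Option Bool) (x : ι → Bool) : Decidable (Con c x) := by
  unfold Con; infer_instance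

theorem ind_eq (c : ι → Option Bool) (x : ι → Bool) : ind c x = if Con c x then 1 else 0 := by
  split_ifs with h
  · refine prod_eq_one fun i _ => ?_
    rcases hc : c i with _ | b
    · rfl
    · simp only [ci, h i b hc, if_true]
  · unfold Con at h
    push Not at h
    obtain ⟨i, b, h1, h2⟩ := h
    refine prod_eq_zero (mem_univ i) ?_
    simp only [ci, h1, h2, if_false]

theorem con_of_mu {π : Bool → ℝ} {S : ι → Option Bool} {x : ι → Bool} (h : mu π S x ≠ 0) :
    Con S x := by
  intro i b hi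
  by_contra hne
  refine h (prod_eq_zero (mem_univ i) ?_)
  simp only [marg, hi, margv, hne, if_false]

/-- the number of terms consistent with a full assignment -/
def cnt (C : Θ → ι → Option Bool) (s : Finset Θ) (x : ι → Bool) : ℕ :=
  (s.filter (fun θ => Con (C θ) x)).card

omit [Fintype Θ] in
theorem cnt_eq (C : Θ → ι → Option Bool) (s : Finset Θ) (x : ι → Bool) :
    (cnt C s x : ℝ) = ∑ θ ∈ s, ind (C θ) x := by
  unfold cnt
  rw [card_filter]
  push_cast
  exact sum_congr rfl fun θ _ => (ind_eq _ _).symm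

omit [Fintype Θ] in
theorem E_cnt {π : Bool → ℝ} (hπ : Dist π) (S : ι → Option Bool) (C : Θ → ι → Option Bool)
    (s : Finset Θ) : ∑ x, mu π S x * (cnt C s x : ℝ) = Zs (marg (fun _ => 1) π S) C s := by
  simp only [cnt_eq, mul_sum]
  rw [sum_comm]
  exact sum_congr rfl fun θ _ => E_ind hπ S (C θ)

omit [Fintype Θ] in
theorem E_cnt2 {π : Bool → ℝ} (hπ : Dist π) (S : ι → Option Bool) (C : Θ → ι → Option Bool)
    (s : Finset Θ) : ∑ x, mu π S x * ((cnt C s x : ℝ) * cnt C s x) =
      ∑ θ ∈ s, wt (marg (fun _ => 1) π S) (C θ) *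
        Zs (marg (fun _ => 1) π (ovr S (C θ))) C s := by
  have h : ∀ x, mu π S x * ((cnt C s x : ℝ) * cnt C s x) =
      ∑ θ ∈ s, ∑ θ' ∈ s, mu π S x * (ind (C θ) x * ind (C θ') x) := by
    intro x
    rw [cnt_eq, sum_mul_sum, mul_sum]
    exact sum_congr rfl fun θ _ => mul_sum _ _ _
  simp only [h]
  rw [sum_comm]
  refine sum_congr rfl fun θ _ => ?_
  rw [sum_comm, Zs, mul_sum]
  exact sum_congr rfl fun θ' _ => E_ind2 hπ S (C θ) (C θ')

theorem ext_ovr {π : Bool → ℝ} {S c : ι → Option Bool} {q : ℕ} (hc : (dom c).card ≤ q)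
    (h : wt (marg (fun _ => 1) π S) c ≠ 0) : Ext S (ovr S c) q := by
  constructor
  · intro i b hi
    rcases hci : c i with _ | b'
    · simp only [ovr, hci, hi]
    · have : b' = b := by
        by_contra hne
        refine h (prod_eq_zero (mem_univ i) ?_)
        simp only [marg, hi, hci, fac, margv, hne, if_false]
      simp only [ovr, hci, this]
  · refine (card_le_card ?_).trans hc
    intro i hi
    simp only [nw, dom, mem_filter, mem_univ, true_and] at hi ⊢
    intro hci
    apply hi.2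
    simp only [ovr, hci, hi.1]

end

end Pool.Agent.J4H45.BP
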